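import Pool.Agent.H97.EM.Lim.Emb

/-! Isolated elements over finite tuples of a countable model `N`. -/

namespace Pool.Agent.H97.EM

/-- All types of `T` have atomic models. -/
def Atm (T : Set Fml) : Prop := ∀ M, IsModel M T → ∀ a : List ℕ, a ≠ [] →
  ∃ (B : Str) (bb : List ℕ), IsModel B T ∧ TE M a B bb ∧ Atomic B bb

/-- The element `c` is isolated over the tuple `D`. -/
def Isol (N : Str) (D : List ℕ) (c : ℕ) : Prop :=
  ∃ θ : Fml, Ev N θ (D ++ [c]) ∧ ∀ c', Ev N θ (D ++ [c']) → TE N (D ++ [c']) N (D ++ [c])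

private theorem ex_transfer {N B : Str} {D bb : List ℕ} (h : TE N D B bb) (χ : Fml) (k : ℕ) :
    (∃ w : List ℕ, w.length = k ∧ Ev N χ (D ++ w)) ↔
      ∃ w : List ℕ, w.length = k ∧ Ev B χ (bb ++ w) := by
  rw [← ev_exs N D h.1 k χ, ← ev_exs B bb h.symm.1 k χ, ← h.2.1]
  exact h.2.2 _

private theorem ch_pick_range (x : List ℕ) : pick x (List.range x.length) = x := by
  unfold pick
  refine List.ext_getElem (by simp) fun i h1 h2 => ?_
  rw [List.getElem_map, List.getElem_range, List.getD_eq_getElem _ _ h2]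

private theorem ch_pick_snoc (x : List ℕ) {J : List ℕ} (hJ : ∀ j ∈ J, j < x.length) (c : ℕ) :
    pick (x ++ [c]) (J ++ [x.length]) = pick x J ++ [c] := by
  unfold pick
  rw [List.map_append]
  congr 1
  · refine List.map_congr_left fun i hi => ?_
    rw [List.getD_append _ _ _ _ (hJ i hi)]
  · rw [List.map_singleton, List.getD_append_right _ _ _ _ le_rfl, Nat.sub_self]
    rfl

private theorem ch_pick_pick (x J I : List ℕ) (hI : ∀ i ∈ I, i < J.length) :
    pick (pick x J) I = pick x (pick J I) := by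
  unfold pick
  rw [List.map_map]
  refine List.map_congr_left fun i hi => ?_
  have h1 := hI i hi
  rw [Function.comp_apply, List.getD_eq_getElem _ _ (by rw [List.length_map]; exact h1),
    List.getElem_map, List.getD_eq_getElem J _ h1]

/-- Isolated elements are dense: take `(B, bb)` atomic with `TE N D B bb`, a witness `c` of `φ`
in `B`, the formula `θ` which isolates it over `bb`; a witness of `θ ∧ φ` in `N` is isolated by
`θ`. -/
theorem isol_dense {T : Set Fml} (hA : Atm T) {N : Str} (hN : IsModel N T) {D : List ℕ}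
    (hD : D ≠ []) (φ : Fml) (h : ∃ c, Ev N φ (D ++ [c])) :
    ∃ c, Ev N φ (D ++ [c]) ∧ Isol N D c := by
  obtain ⟨B, bb, -, hte, hat⟩ := hA N hN D hD
  obtain ⟨c, hc⟩ := h
  obtain ⟨w, hw, hw2⟩ := (ex_transfer hte φ 1).1 ⟨[c], rfl, hc⟩
  obtain ⟨θ, h1, h2⟩ := hat w
  obtain ⟨w', hw', h3⟩ := (ex_transfer hte (.and θ φ) 1).2 ⟨w, hw, h1, hw2⟩
  obtain ⟨x, rfl⟩ := List.length_eq_one_iff.1 hw'
  refine ⟨x, h3.2, θ, h3.1, ?_⟩
  have key : ∀ (y z : ℕ) (ψ : Fml), Ev N θ (D ++ [y]) → Ev N θ (D ++ [z]) →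
      Ev N ψ (D ++ [y]) → Ev N ψ (D ++ [z]) := by
    intro y z ψ hy hz hψ
    by_contra hcon
    obtain ⟨u, hu, hu2⟩ := (ex_transfer hte (.and θ ψ) 1).1 ⟨[y], rfl, hy, hψ⟩
    obtain ⟨v, hv, hv2⟩ := (ex_transfer hte (.and θ (.neg ψ)) 1).1 ⟨[z], rfl, hz, hcon⟩
    have e1 := h2 u (hu.trans hw.symm) hu2.1
    have e2 := h2 v (hv.trans hw.symm) hv2.1
    exact hv2.2 ((e2.2.2 ψ).2 ((e1.2.2 ψ).1 hu2.2))
  intro y hy
  refine ⟨fun h0 => hD (List.append_eq_nil_iff.1 h0).1, by simp, fun ψ => ?_⟩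
  exact ⟨key y x ψ hy h3.1, key x y ψ h3.1 hy⟩

theorem Isol.of_te {N : Str} {D : List ℕ} {c c' : ℕ} (h : Isol N D c)
    (h' : TE N (D ++ [c']) N (D ++ [c])) : Isol N D c' := by
  obtain ⟨θ, h1, h2⟩ := h
  exact ⟨θ, (h'.2.2 θ).2 h1, fun x hx => (h2 x hx).trans h'.symm⟩

/-- Going up from `D` to a tuple `D'` which contains it: `isol_dense` over `D'` with the renamed
formula which isolates `c` over `D`. -/
theorem isol_up_list {T : Set Fml} (hA : Atm T) {N : Str} (hN : IsModel N T) {D D' : List ℕ}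
    (hD : D ≠ []) (hsub : ∃ J : List ℕ, (∀ j ∈ J, j < D'.length) ∧ pick D' J = D) {c : ℕ}
    (hc : Isol N D c) : ∃ c', TE N (D ++ [c']) N (D ++ [c]) ∧ Isol N D' c' := by
  obtain ⟨J, hJ, hp⟩ := hsub
  obtain ⟨θ, h1, h2⟩ := hc
  have hD' : D' ≠ [] := by
    intro h0
    rw [h0] at hJ
    have hJ0 : J = [] := List.eq_nil_iff_forall_not_mem.2 fun j hj => by
      have := hJ j hj
      simp at this
    rw [hJ0] at hp
    exact hD hp.symm
  have hev : ∀ x : ℕ, Ev N (renc θ (J ++ [D'.length])) (D' ++ [x]) ↔ Ev N θ (D ++ [x]) := by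
    intro x
    unfold Ev
    rw [sat_renc, ← ext_pick (a := D' ++ [x]) (I := J ++ [D'.length])
      (fun h0 => List.cons_ne_nil _ _ (List.append_eq_nil_iff.1 h0).2), ch_pick_snoc D' hJ x, hp]
    intro i hi
    rw [List.length_append, List.length_singleton]
    rcases List.mem_append.1 hi with hi | hi
    · have := hJ i hi
      omega
    · rw [List.mem_singleton.1 hi]
      omega
  obtain ⟨c', h3, h4⟩ := isol_dense hA hN hD' (renc θ (J ++ [D'.length])) ⟨c, (hev c).2 h1⟩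
  exact ⟨c', h2 c' ((hev c').1 h3), h4⟩

private theorem chain_le {D : ℕ → List ℕ}
    (hsub : ∀ m, ∃ J : List ℕ, (∀ j ∈ J, j < (D (m + 1)).length) ∧ pick (D (m + 1)) J = D m)
    (m s : ℕ) : ∃ J : List ℕ, (∀ j ∈ J, j < (D (m + s)).length) ∧ pick (D (m + s)) J = D m := by
  induction s with
  | zero => exact ⟨List.range (D m).length, fun j hj => List.mem_range.1 hj, ch_pick_range _⟩
  | succ s ih =>
    obtain ⟨J, hJ, hp⟩ := ih
    obtain ⟨J1, hJ1, hp1⟩ := hsub (m + s)
    have hlen : (D (m + s)).length = J1.length := by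
      rw [← hp1]
      unfold pick
      rw [List.length_map]
    have hJ' : ∀ j ∈ J, j < J1.length := fun j hj => by rw [← hlen]; exact hJ j hj
    refine ⟨pick J1 J, fun j hj => ?_, ?_⟩
    · unfold pick at hj
      obtain ⟨i, hi, rfl⟩ := List.mem_map.1 hj
      rw [List.getD_eq_getElem _ _ (hJ' i hi)]
      exact hJ1 _ (List.getElem_mem _)
    · rw [← hp, ← hp1]
      exact (ch_pick_pick _ _ _ hJ').symm

/-- Going up a finite chain `D 0 ⊂ D 1 ⊂ ..` (as sets), induction on `t`. -/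
theorem isol_chain {T : Set Fml} (hA : Atm T) {N : Str} (hN : IsModel N T)
    {D : ℕ → List ℕ} (h0 : ∀ m, D m ≠ [])
    (hsub : ∀ m, ∃ J : List ℕ, (∀ j ∈ J, j < (D (m + 1)).length) ∧ pick (D (m + 1)) J = D m)
    (n : ℕ) (φ : Fml) (h : ∃ c, Ev N φ (D n ++ [c])) (t : ℕ) :
    ∃ c, Ev N φ (D n ++ [c]) ∧ ∀ m, n ≤ m → m ≤ n + t → Isol N (D m) c := by
  induction t with
  | zero =>
    obtain ⟨c, h1, h2⟩ := isol_dense hA hN (h0 n) φ h
    refine ⟨c, h1, fun m h3 h4 => ?_⟩
    have h5 : m = n := by omega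
    rw [h5]
    exact h2
  | succ t ih =>
    obtain ⟨c, h1, h2⟩ := ih
    obtain ⟨c', h3, h4⟩ := isol_up_list hA hN (h0 (n + t)) (hsub (n + t))
      (h2 (n + t) (by omega) le_rfl)
    have h5 : ∀ m, n ≤ m → m ≤ n + t → TE N (D m ++ [c']) N (D m ++ [c]) := by
      intro m hm1 hm2
      obtain ⟨s, hs⟩ : ∃ s, n + t = m + s := ⟨n + t - m, by omega⟩
      obtain ⟨J, hJ, hp⟩ := chain_le hsub m s
      rw [hs] at h3
      have h6 := h3.pick (I := J ++ [(D (m + s)).length])
        (fun h7 => List.cons_ne_nil _ _ (List.append_eq_nil_iff.1 h7).2) (fun i hi => by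
          rw [List.length_append, List.length_singleton]
          rcases List.mem_append.1 hi with hi | hi
          · have := hJ i hi
            omega
          · rw [List.mem_singleton.1 hi]
            omega)
      rw [ch_pick_snoc _ hJ, ch_pick_snoc _ hJ, hp] at h6
      exact h6
    refine ⟨c', ((h5 n le_rfl (by omega)).2.2 φ).2 h1, fun m hm1 hm2 => ?_⟩
    by_cases hm : m ≤ n + t
    · exact (h2 m hm1 hm).of_te (h5 m hm1 hm)
    · have h6 : m = n + t + 1 := by omega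
      rw [h6]
      exact h4

end Pool.Agent.H97.EM
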