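import Pool.Agent.H97.EM.Lim.Ch1

/-! The simultaneous construction of elementary submodels `N_0 ⊂ N_1 ⊂ ..` of `N`. -/

namespace Pool.Agent.H97.EM

/-- Lists of pairs (element, level); the part of level at most `n`. -/
def lvl (n : ℕ) (S : List (ℕ × ℕ)) : List ℕ := (S.filter fun p => p.2 ≤ n).map Prod.fst

theorem lvl_append (n : ℕ) (S S' : List (ℕ × ℕ)) : lvl n (S ++ S') = lvl n S ++ lvl n S' := by
  simp [lvl]

private theorem exists_pick2 (a Z : List ℕ) (h : ∀ z ∈ Z, z ∈ a) :
    ∃ J : List ℕ, (∀ j ∈ J, j < a.length) ∧ pick a J = Z := by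
  induction Z with
  | nil => exact ⟨[], by simp, rfl⟩
  | cons z Z ih =>
    obtain ⟨J, hJ, hp⟩ := ih fun y hy => h y (List.mem_cons_of_mem _ hy)
    obtain ⟨j, hj, hjz⟩ := List.getElem_of_mem (h z List.mem_cons_self)
    refine ⟨j :: J, ?_, ?_⟩
    · intro i hi
      rcases List.mem_cons.1 hi with rfl | hi
      · exact hj
      · exact hJ i hi
    · unfold pick at hp ⊢
      rw [List.map_cons, hp, List.getD_eq_getElem _ _ hj, hjz]

theorem lvl_sub {n m : ℕ} (h : n ≤ m) (S : List (ℕ × ℕ)) :
    ∃ J : List ℕ, (∀ j ∈ J, j < (lvl m S).length) ∧ pick (lvl m S) J = lvl n S := by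
  refine exists_pick2 _ _ fun z hz => ?_
  unfold lvl at hz ⊢
  obtain ⟨p, hp, rfl⟩ := List.mem_map.1 hz
  rw [List.mem_filter, decide_eq_true_iff] at hp
  refine List.mem_map.2 ⟨p, ?_, rfl⟩
  rw [List.mem_filter, decide_eq_true_iff]
  exact ⟨hp.1, hp.2.trans h⟩

/-- The requests: level, formula, variable, positions of the parameters; every request has
infinitely many numbers. -/
abbrev Rq := ℕ × Fml × ℕ × List ℕ

def req (t : ℕ) : Rq := Denumerable.ofNat Rq t.unpair.1

theorem req_inf (r : Rq) (s : ℕ) : ∃ t, s ≤ t ∧ req t = r := by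
  refine ⟨Nat.pair (Encodable.encode r) s, Nat.right_le_pair _ _, ?_⟩
  unfold req
  rw [Nat.unpair_pair]
  exact Denumerable.ofNat_encode r

/-- `c` is a solution of the request `r` in the list `S`: the formula holds when the variable
gets the value `c` and the variable `x_j` the element of the level part at the position
`r.2.2.2.getD j 0` (the first element if the position is too large). -/
def Sol (N : Str) (S : List (ℕ × ℕ)) (r : Rq) (c : ℕ) : Prop :=
  Sat N r.2.1 (Function.update
    (fun j => ext (lvl r.1 S) (r.2.2.2.getD j 0)) r.2.2.1 c)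

private theorem sol_formula (N : Str) (D : List ℕ) (hD : D ≠ []) (φ : Fml) (i : ℕ) (J : List ℕ) :
    ∃ φ' : Fml, ∀ c, Ev N φ' (D ++ [c]) ↔
      Sat N φ (Function.update (fun j => ext D (J.getD j 0)) i c) := by
  obtain ⟨φ', h⟩ := ren_exists φ fun j =>
    if j = i then D.length else if J.getD j 0 < D.length then J.getD j 0 else 0
  refine ⟨φ', fun c => ?_⟩
  unfold Ev
  rw [h]
  have h1 : (ext (D ++ [c]) ∘ fun j => if j = i then D.length else
      if J.getD j 0 < D.length then J.getD j 0 else 0) =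
      Function.update (fun j => ext D (J.getD j 0)) i c := by
    have hlen : (D ++ [c]).length = D.length + 1 := by simp
    have hpos : 0 < D.length := List.length_pos_iff.2 hD
    have hlt : ∀ p, p < D.length → ext (D ++ [c]) p = ext D p := by
      intro p hp
      unfold ext
      rw [List.getD_eq_getElem _ _ (by omega), List.getD_eq_getElem _ _ hp,
        List.getElem_append_left hp]
    funext j
    rw [Function.comp_apply]
    by_cases hj : j = i
    · rw [if_pos hj, hj, Function.update_self]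
      unfold ext
      rw [List.getD_eq_getElem _ _ (by omega), List.getElem_append_right le_rfl]
      simp
    · rw [if_neg hj, Function.update_of_ne hj]
      by_cases hp : J.getD j 0 < D.length
      · rw [if_pos hp, hlt _ hp]
      · rw [if_neg hp, hlt _ hpos]
        unfold ext
        rw [List.getD_eq_default D _ (Nat.le_of_not_lt hp), List.getD_eq_getElem _ _ hpos]
        cases D with
        | nil => exact absurd rfl hD
        | cons x D => rfl
  rw [h1]

private theorem lvl_const (S : List (ℕ × ℕ)) : ∃ t, ∀ m, t ≤ m → ∀ m', t ≤ m' →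
    lvl m S = lvl m' S := by
  induction S with
  | nil => exact ⟨0, fun _ _ _ _ => rfl⟩
  | cons p S ih =>
    obtain ⟨t, ht⟩ := ih
    refine ⟨max t p.2, fun m hm m' hm' => ?_⟩
    have h1 := ht m ((le_max_left _ _).trans hm) m' ((le_max_left _ _).trans hm')
    have h2 : p.2 ≤ m := (le_max_right _ _).trans hm
    have h3 : p.2 ≤ m' := (le_max_right _ _).trans hm'
    unfold lvl at h1 ⊢
    rw [List.filter_cons_of_pos (by simpa using h2), List.filter_cons_of_pos (by simpa using h3),
      List.map_cons, List.map_cons, h1]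

private theorem lvl_ne_nil {S : List (ℕ × ℕ)} (h0 : lvl 0 S ≠ []) (m : ℕ) : lvl m S ≠ [] := by
  intro h1
  obtain ⟨J, hJ, hp⟩ := lvl_sub (Nat.zero_le m) S
  apply h0
  rw [← hp]
  rw [h1] at hJ
  cases J with
  | nil => rfl
  | cons j J =>
    exact absurd (hJ j List.mem_cons_self) (by simp)

/-- One step: add a solution of the request (if there is one) which is isolated over all parts of
level at least the level of the request (`isol_chain`, `lvl_sub`; the parts are constant
from the largest level on; the request is a formula at `lvl r.1 S ++ [c]` by `ren_exists`). -/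
theorem exists_next {T : Set Fml} (hA : Atm T) {N : Str} (hN : IsModel N T)
    (S : List (ℕ × ℕ)) (h0 : lvl 0 S ≠ []) (r : Rq) :
    ∃ c, ((∃ c', Sol N S r c') → Sol N S r c) ∧ ∀ m, r.1 ≤ m → Isol N (lvl m S) c := by
  obtain ⟨φ', hφ'⟩ := sol_formula N (lvl r.1 S) (lvl_ne_nil h0 r.1) r.2.1 r.2.2.1 r.2.2.2
  obtain ⟨t, ht⟩ := lvl_const S
  have key : ∀ φ : Fml, (∃ c, Ev N φ (lvl r.1 S ++ [c])) →
      ∃ c, Ev N φ (lvl r.1 S ++ [c]) ∧ ∀ m, r.1 ≤ m → Isol N (lvl m S) c := by
    intro φ hφ
    obtain ⟨c, hc, hiso⟩ := isol_chain hA hN (D := fun m => lvl m S) (lvl_ne_nil h0)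
      (fun m => lvl_sub (Nat.le_succ m) S) r.1 φ hφ t
    refine ⟨c, hc, fun m hm => ?_⟩
    by_cases h1 : m ≤ r.1 + t
    · exact hiso m hm h1
    · have h2 := hiso (r.1 + t) (by omega) le_rfl
      have h3 : lvl m S = lvl (r.1 + t) S := ht m (by omega) (r.1 + t) (by omega)
      rw [h3]
      exact h2
  by_cases hs : ∃ c', Sol N S r c'
  · obtain ⟨c', hc'⟩ := hs
    obtain ⟨c, hc, hiso⟩ := key φ' ⟨c', (hφ' c').2 hc'⟩
    exact ⟨c, fun _ => (hφ' c).1 hc, hiso⟩
  · obtain ⟨c, _, hiso⟩ := key top ⟨0, sat_top N _⟩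
    exact ⟨c, fun h => absurd h hs, hiso⟩

/-- The construction. -/
theorem exists_S {T : Set Fml} (hA : Atm T) {N : Str} (hN : IsModel N T) :
    ∃ (S : ℕ → List (ℕ × ℕ)) (c : ℕ → ℕ), S 0 = [(0, 0)] ∧
      (∀ t, S (t + 1) = S t ++ [(c t, (req t).1), (t + 1, t + 1)]) ∧
      (∀ t, (∃ c', Sol N (S t) (req t) c') → Sol N (S t) (req t) (c t)) ∧
      ∀ t m, (req t).1 ≤ m → Isol N (lvl m (S t)) (c t) := by
  classical
  have h1 : ∀ (S : List (ℕ × ℕ)) (r : Rq), ∃ c, lvl 0 S ≠ [] →
      ((∃ c', Sol N S r c') → Sol N S r c) ∧ ∀ m, r.1 ≤ m → Isol N (lvl m S) c := by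
    intro S r
    by_cases h0 : lvl 0 S ≠ []
    · obtain ⟨c, hc⟩ := exists_next hA hN S h0 r
      exact ⟨c, fun _ => hc⟩
    · exact ⟨0, fun h => absurd h h0⟩
  choose next hnext using h1
  let S : ℕ → List (ℕ × ℕ) := fun t => Nat.rec [(0, 0)]
    (fun t S => S ++ [(next S (req t), (req t).1), (t + 1, t + 1)]) t
  have hS : ∀ t, S (t + 1) = S t ++ [(next (S t) (req t), (req t).1), (t + 1, t + 1)] :=
    fun t => rfl
  have h0 : ∀ t, lvl 0 (S t) ≠ [] := by
    intro t
    induction t with
    | zero =>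
      change lvl 0 [(0, 0)] ≠ []
      simp [lvl]
    | succ t ih =>
      rw [hS, lvl_append]
      intro h2
      exact ih (List.append_eq_nil_iff.1 h2).1
  exact ⟨S, fun t => next (S t) (req t), rfl, hS, fun t => (hnext (S t) (req t) (h0 t)).1,
    fun t => (hnext (S t) (req t) (h0 t)).2⟩

end Pool.Agent.H97.EM
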