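import Pool.Agent.H97.EM.Lim.Ch2

/-! The levels are elementary submodels and atomic over finite tuples. -/

namespace Pool.Agent.H97.EM

/-- The data of `exists_S`. -/
structure Cns3 (N : Str) (S : ℕ → List (ℕ × ℕ)) (c : ℕ → ℕ) : Prop where
  zero : S 0 = [(0, 0)]
  succ : ∀ t, S (t + 1) = S t ++ [(c t, (req t).1), (t + 1, t + 1)]
  sol : ∀ t, (∃ c', Sol N (S t) (req t) c') → Sol N (S t) (req t) (c t)
  iso : ∀ t m, (req t).1 ≤ m → Isol N (lvl m (S t)) (c t)

variable {N : Str} {S : ℕ → List (ℕ × ℕ)} {c : ℕ → ℕ}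

/-- The submodel number `n`. -/
def Sub (S : ℕ → List (ℕ × ℕ)) (n : ℕ) : Set ℕ := {x | ∃ t, x ∈ lvl n (S t)}

private theorem c3_mem_lvl {n : ℕ} {S : List (ℕ × ℕ)} {x : ℕ} :
    x ∈ lvl n S ↔ ∃ k, (x, k) ∈ S ∧ k ≤ n := by
  unfold lvl
  constructor
  · intro hx
    obtain ⟨p, hp, rfl⟩ := List.mem_map.1 hx
    rw [List.mem_filter, decide_eq_true_iff] at hp
    exact ⟨p.2, hp.1, hp.2⟩
  · rintro ⟨k, hk, hkn⟩
    refine List.mem_map.2 ⟨(x, k), ?_, rfl⟩
    rw [List.mem_filter, decide_eq_true_iff]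
    exact ⟨hk, hkn⟩

private theorem c3_prefix (h : Cns3 N S c) {s t : ℕ} (hst : s ≤ t) : ∃ R, S t = S s ++ R := by
  induction t, hst using Nat.le_induction with
  | base => exact ⟨[], (List.append_nil _).symm⟩
  | succ t _ ih =>
    obtain ⟨R, hR⟩ := ih
    exact ⟨R ++ [(c t, (req t).1), (t + 1, t + 1)], by rw [h.succ, hR, List.append_assoc]⟩

theorem Cns3.pfx (h : Cns3 N S c) {n s t : ℕ} (hst : s ≤ t) :
    lvl n (S s) <+: lvl n (S t) := by
  obtain ⟨R, hR⟩ := c3_prefix h hst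
  exact ⟨lvl n R, by rw [hR, lvl_append]⟩

theorem Cns3.sub_mono (h : Cns3 N S c) (n : ℕ) : Sub S n ⊆ Sub S (n + 1) := by
  rintro x ⟨t, ht⟩
  obtain ⟨k, hk, hkn⟩ := c3_mem_lvl.1 ht
  exact ⟨t, c3_mem_lvl.2 ⟨k, hk, Nat.le_succ_of_le hkn⟩⟩

theorem Cns3.mem_sub (h : Cns3 N S c) (n : ℕ) : n ∈ Sub S n := by
  refine ⟨n, c3_mem_lvl.2 ⟨n, ?_, le_rfl⟩⟩
  cases n with
  | zero => rw [h.zero]; simp
  | succ t => rw [h.succ]; simp

private theorem c3_ext_pfx {a b : List ℕ} (h : a <+: b) {j : ℕ} (hj : j < a.length) :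
    ext b j = a[j] := by
  obtain ⟨r, rfl⟩ := h
  unfold ext
  rw [List.getD_eq_getElem _ _ (by rw [List.length_append]; omega), List.getElem_append_left hj]

private theorem c3_stage (h : Cns3 N S c) {n : ℕ} {v : ℕ → ℕ} (hv : ∀ j, v j ∈ Sub S n) (K : ℕ) :
    ∃ t, ∀ j < K, v j ∈ lvl n (S t) := by
  induction K with
  | zero => exact ⟨0, fun j hj => absurd hj (Nat.not_lt_zero j)⟩
  | succ K ih =>
    obtain ⟨t, ht⟩ := ih
    obtain ⟨s, hs⟩ := hv K
    refine ⟨max t s, fun j hj => ?_⟩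
    rcases Nat.lt_succ_iff_lt_or_eq.1 hj with h1 | rfl
    · exact (h.pfx (le_max_left t s)).subset (ht j h1)
    · exact (h.pfx (le_max_right t s)).subset hs

private theorem c3_pos (a : List ℕ) (v : ℕ → ℕ) (K : ℕ) (h : ∀ j < K, v j ∈ a) :
    ∃ J : List ℕ, ∀ j < K, ∃ h1 : J.getD j 0 < a.length, a[J.getD j 0] = v j := by
  classical
  have h1 : ∀ j, ∃ p, j < K → ∃ h1 : p < a.length, a[p] = v j := by
    intro j
    by_cases hj : j < K
    · obtain ⟨p, hp, hp2⟩ := List.getElem_of_mem (h j hj)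
      exact ⟨p, fun _ => ⟨hp, hp2⟩⟩
    · exact ⟨0, fun h2 => absurd h2 hj⟩
  choose p hp using h1
  refine ⟨(List.range K).map p, fun j hj => ?_⟩
  have h2 : ((List.range K).map p).getD j 0 = p j := by
    rw [List.getD_eq_getElem _ _ (by simpa using hj), List.getElem_map, List.getElem_range]
  obtain ⟨h3, h4⟩ := hp j hj
  exact ⟨h2 ▸ h3, by simp only [h2]; exact h4⟩

/-- Tarski's condition. -/
theorem Cns3.tarski (h : Cns3 N S c) (n : ℕ) (φ : Fml) (i : ℕ) (v : ℕ → ℕ)
    (hv : ∀ j, v j ∈ Sub S n) (hs : Sat N (.ex i φ) v) :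
    ∃ x ∈ Sub S n, Sat N φ (Function.update v i x) := by
  obtain ⟨s, hs1⟩ := c3_stage h hv (Encodable.encode φ + 1)
  obtain ⟨J, hJ⟩ := c3_pos _ v _ hs1
  obtain ⟨t, hst, hreq⟩ := req_inf (n, φ, i, J) s
  have hsol : ∀ x, Sol N (S t) (n, φ, i, J) x ↔ Sat N φ (Function.update v i x) := by
    intro x
    unfold Sol
    refine sat_congr N φ _ _ fun j hj => ?_
    have h1 := fv_le φ j hj
    by_cases hji : j = i
    · rw [hji, Function.update_self, Function.update_self]
    · rw [Function.update_of_ne hji, Function.update_of_ne hji]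
      obtain ⟨h2, h3⟩ := hJ j (by omega)
      rw [c3_ext_pfx (h.pfx hst) h2, h3]
  obtain ⟨x, hx⟩ := hs
  have h4 := h.sol t
  have h5 : (c t, (req t).1) ∈ S (t + 1) := by
    rw [h.succ]
    exact List.mem_append_right _ List.mem_cons_self
  rw [hreq] at h4 h5
  exact ⟨c t, ⟨t + 1, c3_mem_lvl.2 ⟨n, h5, le_rfl⟩⟩, (hsol _).1 (h4 ⟨x, (hsol x).2 hx⟩)⟩

private theorem c3_lvl_pair_pos {n x r t : ℕ} (hr : r ≤ n) (ht : n ≤ t) :
    lvl n [(x, r), (t + 1, t + 1)] = [x] := by
  have h1 : ¬ t + 1 ≤ n := by omega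
  unfold lvl
  rw [List.filter_cons_of_pos (by simpa using hr), List.filter_cons_of_neg (by simpa using h1)]
  rfl

private theorem c3_lvl_pair_neg {n x r t : ℕ} (hr : ¬ r ≤ n) (ht : n ≤ t) :
    lvl n [(x, r), (t + 1, t + 1)] = [] := by
  have h1 : ¬ t + 1 ≤ n := by omega
  unfold lvl
  rw [List.filter_cons_of_neg (by simpa using hr), List.filter_cons_of_neg (by simpa using h1)]
  rfl

private theorem c3_ex {a b : List ℕ} (h : TE N a N b) (χ : Fml) :
    (∃ x, Ev N χ (a ++ [x])) ↔ ∃ x, Ev N χ (b ++ [x]) := by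
  have key : ∀ d : List ℕ, d ≠ [] → (Ev N (exs d.length 1 χ) d ↔ ∃ x, Ev N χ (d ++ [x])) := by
    intro d hd
    rw [ev_exs N d hd 1 χ]
    constructor
    · rintro ⟨w, hw, h1⟩
      obtain ⟨x, rfl⟩ := List.length_eq_one_iff.1 hw
      exact ⟨x, h1⟩
    · rintro ⟨x, h1⟩
      exact ⟨[x], rfl, h1⟩
  rw [← key a h.1, ← key b h.symm.1, ← h.2.1]
  exact h.2.2 _

private theorem c3_step {a b : List ℕ} {x y : ℕ} {θ : Fml} (h : TE N a N b)
    (hx : Ev N θ (a ++ [x]))
    (hθ : ∀ z, Ev N θ (b ++ [z]) → TE N (b ++ [z]) N (b ++ [y])) :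
    TE N (a ++ [x]) N (b ++ [y]) := by
  have key : ∀ ψ, Ev N ψ (a ++ [x]) → Ev N ψ (b ++ [y]) := by
    intro ψ hψ
    obtain ⟨z, hz1, hz2⟩ := (c3_ex h (.and θ ψ)).1 ⟨x, hx, hψ⟩
    exact ((hθ z hz1).2.2 ψ).1 hz2
  refine ⟨fun h0 => List.cons_ne_nil _ _ (List.append_eq_nil_iff.1 h0).2, ?_, fun ψ =>
    ⟨key ψ, fun h1 => ?_⟩⟩
  · rw [List.length_append, List.length_append, h.2.1]
    rfl
  · by_contra h2
    exact key (.neg ψ) h2 h1

private theorem c3_short (θ : Fml) {L : ℕ} (hL : 0 < L) : ∃ θ' : Fml, ∀ (a : List ℕ) (x : ℕ),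
    a.length = L → (Ev N θ' (a ++ [x]) ↔ Ev N θ a) := by
  obtain ⟨θ', h⟩ := ren_exists θ fun j => if j < L then j else 0
  refine ⟨θ', fun a x ha => ?_⟩
  unfold Ev
  rw [h]
  have h1 : (ext (a ++ [x]) ∘ fun j => if j < L then j else 0) = ext a := by
    have hlt : ∀ p, p < a.length → ext (a ++ [x]) p = ext a p := by
      intro p hp
      unfold ext
      rw [List.getD_eq_getElem _ _ (by rw [List.length_append]; omega),
        List.getD_eq_getElem _ _ hp, List.getElem_append_left hp]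
    funext j
    rw [Function.comp_apply]
    by_cases hj : j < L
    · rw [if_pos hj, hlt j (by omega)]
    · rw [if_neg hj, hlt 0 (by omega)]
      unfold ext
      have hj' : a.length ≤ j := by omega
      have h0' : 0 < a.length := by omega
      rw [List.getD_eq_default a _ hj', List.getD_eq_getElem a _ h0']
      cases a with
      | nil => exact absurd h0' (Nat.lt_irrefl 0)
      | cons z a => rfl
  rw [h1]

/-- For `t ≥ n` the part `lvl n (S t)` is isolated over `lvl n (S n)` (induction on `t`; from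
`t = n` on all new elements of level at most `n` are isolated over the part). The formula:
if `θ` isolates `D ++ E` over `D` and `θ'` isolates `c` over `D ++ E` then `θ ∧ θ'` isolates
`D ++ E ++ [c]` over `D` (take `θ` with variables below the length, `exists_short`). -/
theorem Cns3.isol (h : Cns3 N S c) {n t : ℕ} (hn : n ≤ t) : ∃ E : List ℕ,
    lvl n (S t) = lvl n (S n) ++ E ∧ ∃ θ : Fml, Ev N θ (lvl n (S n) ++ E) ∧
      ∀ E' : List ℕ, E'.length = E.length → Ev N θ (lvl n (S n) ++ E') →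
        TE N (lvl n (S n) ++ E') N (lvl n (S n) ++ E) := by
  have hne : lvl n (S n) ≠ [] := by
    intro h0
    have h1 := h.pfx (n := n) (Nat.zero_le n)
    rw [h0, h.zero] at h1
    have h2 := List.prefix_nil.1 h1
    simp [lvl] at h2
  induction t, hn using Nat.le_induction with
  | base =>
    refine ⟨[], (List.append_nil _).symm, top, sat_top N _, fun E' hE' _ => ?_⟩
    rw [List.length_nil] at hE'
    rw [List.eq_nil_of_length_eq_zero hE', List.append_nil]
    exact TE.refl N hne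
  | succ t hnt ih =>
    obtain ⟨E, hE, θ, h1, h2⟩ := ih
    have hsucc := h.succ t
    have hiso := h.iso t n
    revert hsucc hiso
    generalize (req t).1 = r1
    intro hsucc hiso
    by_cases hr : r1 ≤ n
    · have hlv : lvl n (S (t + 1)) = lvl n (S n) ++ (E ++ [c t]) := by
        rw [hsucc, lvl_append, hE, c3_lvl_pair_pos hr hnt, List.append_assoc]
      obtain ⟨θ', h3, h4⟩ := hiso hr
      rw [hE] at h3 h4
      obtain ⟨θs, hθs⟩ := c3_short (N := N) θ (L := (lvl n (S n) ++ E).length)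
        (by rw [List.length_append]; have := List.length_pos_iff.2 hne; omega)
      refine ⟨E ++ [c t], hlv, .and θs θ', ?_, fun E1 hE1 hev => ?_⟩
      · rw [← List.append_assoc]
        exact ⟨(hθs _ _ rfl).2 h1, h3⟩
      · obtain ⟨E', x, rfl⟩ : ∃ E' x, E1 = E' ++ [x] := by
          have h5 : E1 ≠ [] := by
            rintro rfl
            rw [List.length_append] at hE1
            simp at hE1
          exact ⟨E1.dropLast, E1.getLast h5, (List.dropLast_append_getLast h5).symm⟩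
        have hl : E'.length = E.length := by
          simpa using hE1
        rw [← List.append_assoc] at hev ⊢
        rw [← List.append_assoc]
        have h6 : Ev N θ (lvl n (S n) ++ E') :=
          (hθs _ _ (by rw [List.length_append, List.length_append, hl])).1 hev.1
        exact c3_step (h2 E' hl h6) hev.2 h4
    · refine ⟨E, ?_, θ, h1, h2⟩
      rw [hsucc, lvl_append, hE, c3_lvl_pair_neg hr hnt, List.append_nil]

end Pool.Agent.H97.EM
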