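import Pool.Agent.H97.EM.Lim.Emb
import Pool.Agent.H97.EM.AtC

/-! Elementary submodels as structures with universe `ℕ`. -/

namespace Pool.Agent.H97.EM

/-- A set with Tarski's condition is infinite (for a finite list of elements use the formula
which says that `x_i` is different from all of them). -/
theorem tarski_infinite {N : Str} {A : Set ℕ} (hne : A.Nonempty)
    (h : ∀ (φ : Fml) (i : ℕ) (v : ℕ → ℕ), (∀ j, v j ∈ A) → Sat N (.ex i φ) v →
      ∃ x ∈ A, Sat N φ (Function.update v i x)) : A.Infinite := by
  intro hfin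
  obtain ⟨a, ha⟩ := hne
  let L : List ℕ := hfin.toFinset.toList
  have hL : ∀ x, x ∈ L ↔ x ∈ A := by
    intro x
    simp [L]
  let v : ℕ → ℕ := fun j => L.getD j a
  have hv : ∀ j, v j ∈ A := by
    intro j
    by_cases hj : j < L.length
    · rw [← hL]
      simp only [v]
      rw [List.getD_eq_getElem _ _ hj]
      exact List.getElem_mem hj
    · simp only [v]
      rw [List.getD_eq_default _ _ (by omega)]
      exact ha
  have hsat : ∀ x, Sat N (conj ((List.range L.length).map fun j => Fml.neg (.eq L.length j)))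
      (Function.update v L.length x) ↔ x ∉ L := by
    intro x
    rw [sat_conj]
    constructor
    · intro h1 hx
      obtain ⟨j, hj, hjx⟩ := List.getElem_of_mem hx
      have h2 := h1 _ (List.mem_map.2 ⟨j, List.mem_range.2 hj, rfl⟩)
      apply h2
      change Function.update v L.length x L.length = Function.update v L.length x j
      rw [Function.update_self, Function.update_of_ne (by omega)]
      simp only [v]
      rw [List.getD_eq_getElem _ _ hj, hjx]
    · intro h1 φ hφ
      obtain ⟨j, hj, rfl⟩ := List.mem_map.1 hφ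
      rw [List.mem_range] at hj
      intro h2
      change Function.update v L.length x L.length = Function.update v L.length x j at h2
      rw [Function.update_self, Function.update_of_ne (by omega)] at h2
      apply h1
      rw [h2]
      simp only [v]
      rw [List.getD_eq_getElem _ _ hj]
      exact List.getElem_mem hj
  obtain ⟨y, hy⟩ := hfin.exists_notMem
  obtain ⟨x, hx, h3⟩ := h _ L.length v hv ⟨y, (hsat y).2 fun h4 => hy ((hL y).1 h4)⟩
  exact (hsat x).1 h3 ((hL x).2 hx)

/-- Enumerate `A` and pull the structure back. -/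
theorem tarski_emb {N : Str} {A : Set ℕ} (hne : A.Nonempty)
    (h : ∀ (φ : Fml) (i : ℕ) (v : ℕ → ℕ), (∀ j, v j ∈ A) → Sat N (.ex i φ) v →
      ∃ x ∈ A, Sat N φ (Function.update v i x)) :
    ∃ (B : Str) (ι : ℕ → ℕ), ElemEmb B N ι ∧ Set.range ι = A := by
  have hinf := tarski_infinite hne h
  classical
  have hinf' : {n | n ∈ A}.Infinite := hinf
  let ι : ℕ → ℕ := Nat.nth fun n => n ∈ A
  have hr : Set.range ι = A := Nat.range_nth_of_infinite hinf'
  have hinj : Function.Injective ι := Nat.nth_injective hinf'
  refine ⟨fun r l => N r (l.map ι), ι, ?_, hr⟩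
  intro φ
  induction φ with
  | eq i j =>
    intro v
    exact ⟨fun h1 => congrArg ι h1, fun h1 => hinj h1⟩
  | rel r l =>
    intro v
    change N r ((l.map v).map ι) ↔ N r (l.map (ι ∘ v))
    rw [List.map_map]
  | neg φ ih =>
    intro v
    exact not_congr (ih v)
  | and φ ψ ih1 ih2 =>
    intro v
    exact and_congr (ih1 v) (ih2 v)
  | ex i φ ih =>
    intro v
    constructor
    · rintro ⟨a, ha⟩
      refine ⟨ι a, ?_⟩
      rw [ih, Function.comp_update] at ha
      exact ha
    · intro h1
      obtain ⟨x, hx, h2⟩ := h φ i (ι ∘ v) (fun j => by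
        rw [← hr]
        exact Set.mem_range_self _) h1
      rw [← hr] at hx
      obtain ⟨a, rfl⟩ := hx
      refine ⟨a, ?_⟩
      rw [ih, Function.comp_update]
      exact h2

/-- Atomicity of the submodel from isolated tuples in `N` (`atomic_of_cofinal`). -/
theorem atomic_sub {B N : Str} {ι : ℕ → ℕ} (hι : ElemEmb B N ι) {b : List ℕ} (hb : b ≠ [])
    (h : ∀ Z : List ℕ, ∃ W J : List ℕ, (∀ j ∈ J, j < (b ++ W).length) ∧
      pick (b ++ W) J = Z ∧ ∃ θ : Fml, Ev N θ (b.map ι ++ W.map ι) ∧
        ∀ W' : List ℕ, W'.length = W.length → Ev N θ (b.map ι ++ W') →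
          TE N (b.map ι ++ W') N (b.map ι ++ W.map ι)) : Atomic B b := by
  have hne : ∀ W : List ℕ, b ++ W ≠ [] := fun W h0 => hb (List.append_eq_nil_iff.1 h0).1
  have hte : ∀ W : List ℕ, TE B (b ++ W) N (b.map ι ++ W.map ι) := by
    intro W
    have h1 := hι.te (hne W)
    rw [List.map_append] at h1
    exact h1
  refine atomic_of_cofinal hb fun Z => ?_
  obtain ⟨W, J, hJ, hp, θ, hθ, hiso⟩ := h Z
  refine ⟨W, J, hJ, hp, θ, ((hte W).2.2 θ).2 hθ, fun W' hl hev => ?_⟩
  have h1 := hiso (W'.map ι) (by rw [List.length_map, hl])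
    (((hte W').2.2 θ).1 hev)
  exact ((hte W').trans h1).trans (hte W).symm

end Pool.Agent.H97.EM
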