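import Pool.Agent.H97.EM.Lim.Ch3
import Pool.Agent.H97.EM.Lim.Ch4

/-! Every countable model which is not almost prime is a limit model. -/

namespace Pool.Agent.H97.EM

private theorem sub_le {N : Str} {S : ℕ → List (ℕ × ℕ)} {c : ℕ → ℕ} (h : Cns3 N S c) {n m : ℕ}
    (hnm : n ≤ m) : Sub S n ⊆ Sub S m := by
  induction m, hnm using Nat.le_induction with
  | base => exact subset_rfl
  | succ k _ ih => exact ih.trans (h.sub_mono k)

private theorem lvl_ne {N : Str} {S : ℕ → List (ℕ × ℕ)} {c : ℕ → ℕ} (h : Cns3 N S c) (n t : ℕ) :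
    lvl n (S t) ≠ [] := by
  intro h0
  have h1 := h.pfx (n := n) (Nat.zero_le t)
  rw [h0, h.zero] at h1
  have h2 := List.prefix_nil.1 h1
  simp [lvl] at h2

private theorem exists_pre {ι : ℕ → ℕ} {A : Set ℕ} (hA : Set.range ι = A) (L : List ℕ)
    (hL : ∀ x ∈ L, x ∈ A) : ∃ b : List ℕ, b.map ι = L := by
  induction L with
  | nil => exact ⟨[], rfl⟩
  | cons x L ih =>
    obtain ⟨b, hb⟩ := ih fun y hy => hL y (List.mem_cons_of_mem _ hy)
    have hx := hL x List.mem_cons_self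
    rw [← hA] at hx
    obtain ⟨y, hy⟩ := hx
    exact ⟨y :: b, by rw [List.map_cons, hy, hb]⟩

private theorem exists_pick (a Z : List ℕ) (h : ∀ z ∈ Z, z ∈ a) :
    ∃ J : List ℕ, (∀ j ∈ J, j < a.length) ∧ pick a J = Z := by
  induction Z with
  | nil => exact ⟨[], by simp, rfl⟩
  | cons z Z ih =>
    obtain ⟨J, hJ, hp⟩ := ih fun y hy => h y (List.mem_cons_of_mem _ hy)
    obtain ⟨j, hj, hjz⟩ := List.getElem_of_mem (h z List.mem_cons_self)
    refine ⟨j :: J, ?_, ?_⟩
    · intro i hi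
      rcases List.mem_cons.1 hi with rfl | hi
      · exact hj
      · exact hJ i hi
    · unfold pick at hp ⊢
      rw [List.map_cons, hp, List.getD_eq_getElem _ _ hj, hjz]

private theorem exists_time {N : Str} {S : ℕ → List (ℕ × ℕ)} {c : ℕ → ℕ} (h : Cns3 N S c) (n : ℕ)
    (Z : List ℕ) (hZ : ∀ z ∈ Z, z ∈ Sub S n) : ∃ t, n ≤ t ∧ ∀ z ∈ Z, z ∈ lvl n (S t) := by
  induction Z with
  | nil => exact ⟨n, le_rfl, by simp⟩
  | cons z Z ih =>
    obtain ⟨t, ht, hp⟩ := ih fun y hy => hZ y (List.mem_cons_of_mem _ hy)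
    obtain ⟨s, hs⟩ := hZ z List.mem_cons_self
    refine ⟨max s t, ht.trans (le_max_right _ _), ?_⟩
    intro y hy
    rcases List.mem_cons.1 hy with rfl | hy
    · exact (h.pfx (le_max_left s t)).subset hs
    · exact (h.pfx (le_max_right s t)).subset (hp y hy)

/-- The submodel number `n` as a structure, atomic over a finite tuple. -/
theorem Cns3.model {N : Str} {S : ℕ → List (ℕ × ℕ)} {c : ℕ → ℕ} (h : Cns3 N S c) (n : ℕ) :
    ∃ (B : Str) (ι : ℕ → ℕ) (b : List ℕ), ElemEmb B N ι ∧ Set.range ι = Sub S n ∧ b ≠ [] ∧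
      Atomic B b := by
  obtain ⟨B, ι, hι, hr⟩ := tarski_emb (N := N) (A := Sub S n) ⟨n, h.mem_sub n⟩
    (fun φ i v hv hs => h.tarski n φ i v hv hs)
  obtain ⟨b, hb⟩ := exists_pre hr (lvl n (S n)) fun x hx => ⟨n, hx⟩
  have hbne : b ≠ [] := by
    intro h0
    rw [h0, List.map_nil] at hb
    exact lvl_ne h n n hb.symm
  refine ⟨B, ι, b, hι, hr, hbne, atomic_sub hι hbne ?_⟩
  intro Z
  obtain ⟨t, ht, hZ⟩ := exists_time h n (Z.map ι) (by
    intro z hz
    obtain ⟨y, _, rfl⟩ := List.mem_map.1 hz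
    rw [← hr]
    exact Set.mem_range_self y)
  obtain ⟨E, hE, θ, hθ, hiso⟩ := h.isol ht
  obtain ⟨W, hW⟩ := exists_pre hr E fun x hx => ⟨t, by
    rw [hE]
    exact List.mem_append_right _ hx⟩
  obtain ⟨J, hJ, hp⟩ := exists_pick (b ++ W) Z (by
    intro z hz
    have h1 := hZ (ι z) (List.mem_map.2 ⟨z, hz, rfl⟩)
    rw [hE, ← hb, ← hW, ← List.map_append] at h1
    obtain ⟨y, hy, hyz⟩ := List.mem_map.1 h1
    rw [← hι.inj hyz]
    exact hy)
  refine ⟨W, J, hJ, hp, θ, ?_, ?_⟩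
  · rw [hb, hW]
    exact hθ
  · intro W' hl hev
    rw [hb] at hev ⊢
    rw [hW]
    exact hiso W' (by rw [hl, ← hW, List.length_map]) hev

/-- Models of a complete theory are elementarily equivalent, and submodels are models. -/
theorem ElemEmb.isModel_down {T : Set Fml} {B N : Str} {ι : ℕ → ℕ} (h : ElemEmb B N ι)
    (hN : IsModel N T) : IsModel B T := fun φ hφ v => (h φ v).2 (hN φ hφ _)

/-- Infinitely many of the submodels are isomorphic to the same member `B` of the finite list of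
models (as a structure take one of the submodels); the elements of the subsequence form the
chain. -/
theorem exists_limitOver {T : Set Fml} (hf : FinMany T) (hA : Atm T) {N : Str}
    (hN : IsModel N T) (hna : ¬ AlmostPrime N) :
    ∃ B, IsModel B T ∧ AlmostPrime B ∧ LimitOver B N := by
  obtain ⟨S, c, h1, h2, h3, h4⟩ := exists_S hA hN
  have h : Cns3 N S c := ⟨h1, h2, h3, h4⟩
  choose B ι b hι hr hb hat using h.model
  have hB : ∀ n, IsModel (B n) T := fun n => (hι n).isModel_down hN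
  obtain ⟨F, hF⟩ := hf
  have h5 : ∀ n, ∃ M : {M // M ∈ F}, Iso (B n) M.1 := fun n => by
    obtain ⟨M, hM, hi⟩ := hF (B n) (hB n)
    exact ⟨⟨M, hM⟩, hi⟩
  choose f hfi using h5
  have hfin : Finite {M // M ∈ F} := by
    classical
    exact (List.finite_toSet F).to_subtype
  obtain ⟨M, hM⟩ := Finite.exists_infinite_fiber f
  have hinf : {n | f n = M}.Infinite := Set.infinite_coe_iff.1 hM
  obtain ⟨m, hm⟩ := hinf.nonempty
  have hg : ∃ g : ℕ → ℕ, StrictMono g ∧ ∀ k, f (g k) = M := by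
    refine ⟨Nat.nth (fun n => f n = M), Nat.nth_strictMono hinf, fun k => ?_⟩
    exact Nat.nth_mem_of_infinite hinf k
  obtain ⟨g, hg1, hg2⟩ := hg
  have h6 : ∀ k, ∃ σ : Equiv.Perm ℕ, ElemEmb (B m) (B (g k)) σ := fun k =>
    elemEmb_of_iso (iso_trans (hfi m) (by
      have h7 := hfi (g k)
      rw [hg2 k] at h7
      have h8 : f m = M := hm
      rw [h8]
      exact iso_symm h7))
  choose σ hσ using h6
  have hrange : ∀ k, Set.range (ι (g k) ∘ σ k) = Sub S (g k) := by
    intro k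
    rw [Set.range_comp, Equiv.range_eq_univ, Set.image_univ, hr]
  refine ⟨B m, hB m, almostPrime_iff.2 ⟨b m, hb m, hat m⟩, hna,
    fun k => ι (g k) ∘ σ k, fun k => (hσ k).comp (hι (g k)), ?_, ?_⟩
  · intro k
    rw [hrange, hrange]
    exact sub_le h (hg1.monotone (Nat.le_succ k))
  · intro x
    refine ⟨x, ?_⟩
    rw [hrange]
    exact sub_le h hg1.le_apply (h.mem_sub x)

end Pool.Agent.H97.EM
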