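import Pool.Agent.H97.EM.Lim.Def
import Pool.Agent.H97.EM.TE
import Pool.Agent.H97.EM.At1

/-! Official and internal notions of types and atomic models. -/

namespace Pool.Agent.H97.EM

private theorem ev_holds {M : Str} {φ : Fml} {a : List ℕ} (hφ : ∀ i ∈ φ.fv, i < a.length) :
    Ev M φ a ↔ Holds M φ a := by
  rw [ev_of_sat (M := M) (φ := φ) (a := a) (v := fun i => a.getD i 0) (fun i _ => rfl) hφ]
  exact ⟨fun h => ⟨hφ, h⟩, fun h => h.2⟩

private theorem pick_range' (x : List ℕ) : pick x (List.range x.length) = x := by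
  unfold pick
  refine List.ext_getElem (by simp) fun i h1 h2 => ?_
  rw [List.getElem_map, List.getElem_range, List.getD_eq_getElem _ _ h2]

/-- (`te_of_holds` and `ev_of_sat`.) -/
theorem te_iff_holds {M N : Str} {a b : List ℕ} (ha : a ≠ []) (hl : a.length = b.length) :
    TE M a N b ↔ ∀ φ, Holds M φ a ↔ Holds N φ b := by
  constructor
  · intro h φ
    constructor
    · intro h1
      exact (ev_holds (by rw [← hl]; exact h1.1)).1 ((h.2.2 φ).1 ((ev_holds h1.1).2 h1))
    · intro h1
      exact (ev_holds (by rw [hl]; exact h1.1)).1 ((h.2.2 φ).2 ((ev_holds h1.1).2 h1))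
  · intro h
    refine te_of_holds ha hl fun φ hφ hev => ?_
    exact (ev_holds (by rw [← hl]; exact hφ)).2 ((h φ).1 ((ev_holds hφ).1 hev))

/-- Every formula can be replaced, at nonempty tuples of length `n`, by a formula with variables
below `n` (`renc φ (List.range n)`). -/
theorem exists_short (φ : Fml) {n : ℕ} (hn : 0 < n) : ∃ φ' : Fml, ∀ (M : Str) (a : List ℕ),
    a.length = n → (Ev M φ a ↔ Holds M φ' a) := by
  have hr : List.range n ≠ [] := by
    intro h0
    have := congrArg List.length h0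
    rw [List.length_range, List.length_nil] at this
    omega
  refine ⟨renc φ (List.range n), fun M a ha => ?_⟩
  rw [← ev_holds (fun i hi => ?_)]
  · unfold Ev
    rw [sat_renc, ← ext_pick hr (fun i hi => by rw [ha]; exact List.mem_range.1 hi), ← ha,
      pick_range']
  · rw [ha]
    rcases fv_renc φ hr i hi with h3 | h3
    · exact List.mem_range.1 h3
    · rw [h3]
      exact hn

theorem atomicOver_iff {M : Str} {a : List ℕ} (ha : a ≠ []) :
    AtomicOver M a ↔ Atomic M a := by
  have hne : ∀ Z : List ℕ, a ++ Z ≠ [] := fun Z h => ha (List.append_eq_nil_iff.1 h).1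
  constructor
  · intro h Z
    obtain ⟨θ, h1, h2⟩ := h Z
    refine ⟨θ, (ev_holds h1.1).2 h1, fun Z' hZ' hev => ?_⟩
    have hl : (a ++ Z').length = (a ++ Z).length := by
      rw [List.length_append, List.length_append, hZ']
    exact (te_iff_holds (hne Z') hl).2 (h2 Z' hZ' ((ev_holds (by rw [hl]; exact h1.1)).1 hev))
  · intro h Z
    obtain ⟨θ, h1, h2⟩ := h Z
    obtain ⟨θ', h3⟩ := exists_short θ (List.length_pos_iff.2 (hne Z))
    refine ⟨θ', (h3 M _ rfl).1 h1, fun Z' hZ' hev => ?_⟩
    have hl : (a ++ Z').length = (a ++ Z).length := by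
      rw [List.length_append, List.length_append, hZ']
    exact (te_iff_holds (hne Z') hl).1 (h2 Z' hZ' ((h3 M _ hl).2 hev))

/-- If `a = []` use the tuple `[0]`. -/
theorem almostPrime_iff {M : Str} : AlmostPrime M ↔ ∃ a : List ℕ, a ≠ [] ∧ Atomic M a := by
  constructor
  · rintro ⟨a, ha⟩
    by_cases h0 : a = []
    · subst h0
      refine ⟨[0], List.cons_ne_nil _ _, (atomicOver_iff (List.cons_ne_nil _ _)).1 fun Z => ?_⟩
      obtain ⟨θ, h1, h2⟩ := ha ([0] ++ Z)
      refine ⟨θ, h1, fun Z' hZ' hev => ?_⟩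
      exact h2 ([0] ++ Z') (by rw [List.length_append, List.length_append, hZ']) hev
    · exact ⟨a, h0, (atomicOver_iff h0).1 ha⟩
  · rintro ⟨a, ha, hat⟩
    exact ⟨a, (atomicOver_iff ha).2 hat⟩

theorem almostPrime_iso {M N : Str} (h : Iso M N) (hM : AlmostPrime M) : AlmostPrime N := by
  obtain ⟨a, ha, hat⟩ := almostPrime_iff.1 hM
  obtain ⟨σ, hσ⟩ := h
  exact almostPrime_iff.2 ⟨a.map σ, fun h0 => ha (List.map_eq_nil_iff.1 h0), hat.iso ha hσ⟩

end Pool.Agent.H97.EM
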