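import Pool.Agent.H97.EM.Defs

/-! Almost prime models, elementary embeddings, limit models. -/

namespace Pool.Agent.H97.EM

/-- `M` is atomic over the tuple `a`: the type of every tuple `Z` over `a` is isolated by
a formula. For countable models this says that `M` is prime over `a`. -/
def AtomicOver (M : Str) (a : List ℕ) : Prop :=
  ∀ Z : List ℕ, ∃ θ : Fml, Holds M θ (a ++ Z) ∧
    ∀ Z' : List ℕ, Z'.length = Z.length → Holds M θ (a ++ Z') →
      ∀ φ : Fml, Holds M φ (a ++ Z') ↔ Holds M φ (a ++ Z)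

/-- Almost prime models: prime over a finite tuple. -/
def AlmostPrime (M : Str) : Prop := ∃ a : List ℕ, AtomicOver M a

/-- `ι` is an elementary embedding of `B` into `N`. -/
def ElemEmb (B N : Str) (ι : ℕ → ℕ) : Prop :=
  ∀ (φ : Fml) (v : ℕ → ℕ), Sat B φ v ↔ Sat N φ (ι ∘ v)

/-- `N` is a limit model over `B`: it is not almost prime and it is the union of an elementary
chain of models isomorphic to `B`. -/
def LimitOver (B N : Str) : Prop :=
  ¬ AlmostPrime N ∧ ∃ ι : ℕ → ℕ → ℕ, (∀ n, ElemEmb B N (ι n)) ∧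
    (∀ n, Set.range (ι n) ⊆ Set.range (ι (n + 1))) ∧ ∀ x, ∃ n, x ∈ Set.range (ι n)

end Pool.Agent.H97.EM
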