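import Pool.Agent.H97.EM.Lim.Emb
import Pool.Agent.H97.EM.Hen2b

/-! The direct limit of `B → B → B → ..` along an elementary embedding `f`. -/

namespace Pool.Agent.H97.EM

/-- The variable `x_v` stands for the element `(unpair v).2` of the copy number `(unpair v).1`;
its image in the copy number `n`. -/
def wn (f : ℕ → ℕ) (n v : ℕ) : ℕ := f^[n - v.unpair.1] v.unpair.2

theorem elemEmb_iter {B : Str} {f : ℕ → ℕ} (hf : ElemEmb B B f) (k : ℕ) :
    ElemEmb B B (f^[k]) := by
  induction k with
  | zero => intro φ v; simp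
  | succ k ih =>
    rw [Function.iterate_succ']
    exact ih.comp hf

/-- The image of a value in a later copy. -/
theorem wn_later {f : ℕ → ℕ} {n n' v : ℕ} (h : v.unpair.1 ≤ n) (hn : n ≤ n') :
    wn f n' v = f^[n' - n] (wn f n v) := by
  unfold wn
  rw [← Function.iterate_add_apply]
  congr 2
  omega

/-- For `n ≤ n'` with all `(unpair v).1 ≤ n`, `v ∈ φ.fv`. -/
theorem sat_wn {B : Str} {f : ℕ → ℕ} (hf : ElemEmb B B f) (φ : Fml) {n n' : ℕ}
    (h : Encodable.encode φ ≤ n) (hn : n ≤ n') : Sat B φ (wn f n) ↔ Sat B φ (wn f n') := by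
  rw [elemEmb_iter hf (n' - n) φ (wn f n)]
  refine sat_congr B φ _ _ fun i hi => ?_
  have h1 : i.unpair.1 ≤ n := (Nat.unpair_left_le i).trans ((fv_le φ i hi).trans h)
  exact (wn_later h1 hn).symm

/-- The Henkin set; for `wit` take `j = pair (encode (∃ x_i φ)) y` (it is larger than `i`). -/
theorem hen_dir {B : Str} {f : ℕ → ℕ} (hf : ElemEmb B B f) :
    Hen B {φ | Sat B φ (wn f (Encodable.encode φ))} := by
  refine ⟨fun F hF => ?_, fun φ => ?_, fun i φ hφ => ?_⟩
  · obtain ⟨n, hn⟩ : ∃ n, ∀ φ ∈ F, Encodable.encode φ ≤ n := by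
      clear hF
      induction F with
      | nil => exact ⟨0, by simp⟩
      | cons a F ih =>
        obtain ⟨n, hn⟩ := ih
        refine ⟨max n (Encodable.encode a), fun φ hφ => ?_⟩
        rcases List.mem_cons.1 hφ with rfl | h
        · exact le_max_right _ _
        · exact (hn φ h).trans (le_max_left _ _)
    exact ⟨wn f n, fun φ hφ => (sat_wn hf φ le_rfl (hn φ hφ)).1 (hF φ hφ)⟩
  · by_cases h : Sat B φ (wn f (Encodable.encode φ))
    · exact Or.inl h
    · refine Or.inr ?_
      change Sat B φ.neg (wn f (Encodable.encode φ.neg))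
      have h1 : Encodable.encode φ ≤ Encodable.encode φ.neg := by
        rw [encode_eq, encode_eq]; simp only [Fml.enc]; omega
      intro h2
      exact h ((sat_wn hf φ le_rfl h1).2 h2)
  · change Sat B (Fml.ex i φ) (wn f (Encodable.encode (Fml.ex i φ))) at hφ
    obtain ⟨y, hy⟩ := hφ
    set e := Encodable.encode (Fml.ex i φ) with he
    have hie : i < e := by
      rw [he, encode_eq]; simp only [Fml.enc]
      have := Nat.left_le_pair i φ.enc
      omega
    have hej : e ≤ Nat.pair e y := Nat.left_le_pair e y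
    refine ⟨Nat.pair e y, by omega, ?_⟩
    change Sat B (Fml.ex i (.and (.eq i (Nat.pair e y)) φ))
      (wn f (Encodable.encode (Fml.ex i (.and (.eq i (Nat.pair e y)) φ))))
    set n' := Encodable.encode (Fml.ex i (.and (.eq i (Nat.pair e y)) φ)) with hn'
    have hen : e ≤ n' := by
      have h1 : Nat.pair e y ∈ (Fml.ex i (.and (.eq i (Nat.pair e y)) φ)).fv := by
        simp only [Fml.fv]
        refine Finset.mem_erase.2 ⟨by omega, ?_⟩
        simp
      have := fv_le _ _ h1
      omega
    have hne : Nat.pair e y ≠ i := by omega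
    have hw : wn f n' (Nat.pair e y) = f^[n' - e] y := by
      unfold wn; simp
    refine ⟨f^[n' - e] y, ?_, ?_⟩
    · change Function.update (wn f n') i (f^[n' - e] y) i =
        Function.update (wn f n') i (f^[n' - e] y) (Nat.pair e y)
      rw [Function.update_self, Function.update_of_ne hne, hw]
    · have h2 := (elemEmb_iter hf (n' - e) φ _).1 hy
      refine (sat_congr B φ _ _ fun v hv => ?_).1 h2
      by_cases hvi : v = i
      · subst hvi; simp
      · have hve : v ≤ e := by
          have h3 : v ∈ (Fml.ex i φ).fv := by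
            simp only [Fml.fv]
            exact Finset.mem_erase.2 ⟨hvi, hv⟩
          exact fv_le _ _ h3
        simp only [Function.comp, Function.update_of_ne hvi]
        exact (wn_later ((Nat.unpair_left_le v).trans hve) hen).symm

/-- The direct limit: `ι i x` is the value of the variable `pair i x`. -/
theorem dirlim {B : Str} {f : ℕ → ℕ} (hf : ElemEmb B B f) :
    ∃ (L : Str) (ι : ℕ → ℕ → ℕ), (∀ i, ElemEmb B L (ι i)) ∧
      (∀ i x, ι i x = ι (i + 1) (f x)) ∧ ∀ z, ∃ i x, z = ι i x := by
  obtain ⟨L, e, he, hL⟩ := (hen_dir hf).model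
  have hL' : ∀ φ n, Encodable.encode φ ≤ n → (Sat B φ (wn f n) ↔ Sat L φ e) := fun φ n hn =>
    (sat_wn hf φ le_rfl hn).symm.trans (hL φ)
  refine ⟨L, fun i x => e (Nat.pair i x), fun i φ u => ?_, fun i x => ?_, fun z => ?_⟩
  · obtain ⟨φ', hφ'⟩ := ren_exists φ fun l => Nat.pair i (u l)
    have h1 := hL' φ' (max (Encodable.encode φ') i) (le_max_left _ _)
    rw [hφ', hφ'] at h1
    have h2 : (wn f (max (Encodable.encode φ') i) ∘ fun l => Nat.pair i (u l)) =
        f^[max (Encodable.encode φ') i - i] ∘ u := by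
      funext l
      simp [wn]
    rw [h2, ← elemEmb_iter hf] at h1
    exact h1
  · have h1 := hL' (Fml.eq (Nat.pair i x) (Nat.pair (i + 1) (f x)))
      (max (Encodable.encode (Fml.eq (Nat.pair i x) (Nat.pair (i + 1) (f x)))) (i + 1))
      (le_max_left _ _)
    set n := max (Encodable.encode (Fml.eq (Nat.pair i x) (Nat.pair (i + 1) (f x)))) (i + 1)
      with hn
    have hni : i + 1 ≤ n := le_max_right _ _
    refine h1.1 ?_
    change wn f n (Nat.pair i x) = wn f n (Nat.pair (i + 1) (f x))
    unfold wn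
    simp only [Nat.unpair_pair]
    rw [← Function.iterate_succ_apply]
    congr 2
    omega
  · obtain ⟨v, rfl⟩ := he z
    exact ⟨v.unpair.1, v.unpair.2, by simp⟩

end Pool.Agent.H97.EM
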