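import Pool.Agent.H97.EM.Lim.Cvt
import Pool.Agent.H97.EM.At1

/-! Elementary embeddings and types. -/

namespace Pool.Agent.H97.EM

variable {B L N : Str} {ι κ : ℕ → ℕ}

theorem ElemEmb.te (h : ElemEmb B N ι) {a : List ℕ} (ha : a ≠ []) : TE B a N (a.map ι) := by
  have h1 := te_of_sat (M := B) (N := N) (v := id) (e := ι) (fun φ => h φ id) ha
  rwa [List.map_id] at h1

theorem ElemEmb.inj (h : ElemEmb B N ι) : Function.Injective ι := by
  intro x y hxy
  have h1 := h (.eq 0 1) (fun i => if i = 0 then x else y)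
  have h2 : Sat N (.eq 0 1) (ι ∘ fun i => if i = 0 then x else y) := hxy
  exact h1.2 h2

theorem ElemEmb.comp (h : ElemEmb B N ι) (h' : ElemEmb N L κ) : ElemEmb B L (κ ∘ ι) := by
  intro φ v
  exact (h φ v).trans (h' φ (ι ∘ v))

theorem ElemEmb.isModel {T : Set Fml} (hT : ∀ φ ∈ T, φ.fv = ∅) (h : ElemEmb B N ι)
    (hB : IsModel B T) : IsModel N T := by
  intro φ hφ v
  refine (sat_congr N φ (ι ∘ fun _ => 0) v fun i hi => ?_).1 ((h φ _).1 (hB φ hφ _))
  rw [hT φ hφ] at hi
  exact absurd hi (Finset.notMem_empty i)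

/-- An isomorphism is an elementary embedding (`sat_iso`). -/
theorem elemEmb_of_iso (h : Iso B N) : ∃ σ : Equiv.Perm ℕ, ElemEmb B N σ := by
  obtain ⟨σ, hσ⟩ := h
  exact ⟨σ, fun φ v => sat_iso hσ φ v⟩

/-- Elementary embeddings from the types of the initial segments: for `φ` and `v` use
`TE.pick` with `I = (List.range (encode φ + 1)).map v`. -/
theorem elemEmb_of_te (h : ∀ n, 0 < n → TE B (List.range n) N ((List.range n).map ι)) :
    ElemEmb B N ι := by
  intro φ v
  obtain ⟨I, hI⟩ : ∃ I, I = (List.range (Encodable.encode φ + 1)).map v := ⟨_, rfl⟩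
  have hlen : I.length = Encodable.encode φ + 1 := by
    rw [hI, List.length_map, List.length_range]
  have hne : I ≠ [] := by
    intro h0
    rw [h0, List.length_nil] at hlen
    omega
  obtain ⟨n, hn⟩ : ∃ n, ∀ i ∈ I, i < n := ⟨I.sum + 1, fun i hi => by
    have := List.single_le_sum (fun x _ => Nat.zero_le x) i hi
    omega⟩
  have hpos : 0 < n := by
    obtain ⟨x, hx⟩ := List.exists_mem_of_ne_nil I hne
    have := hn x hx
    omega
  have h1 := (h n hpos).pick hne (fun i hi => by
    rw [List.length_range]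
    exact hn i hi)
  have e1 : pick (List.range n) I = I := by
    unfold pick
    conv_rhs => rw [← List.map_id I]
    refine List.map_congr_left fun i hi => ?_
    rw [List.getD_eq_getElem _ _ (by rw [List.length_range]; exact hn i hi), List.getElem_range]
    rfl
  have e2 : pick ((List.range n).map ι) I = I.map ι := by
    unfold pick
    refine List.map_congr_left fun i hi => ?_
    rw [List.getD_eq_getElem _ _ (by rw [List.length_map, List.length_range]; exact hn i hi),
      List.getElem_map, List.getElem_range]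
  rw [e1, e2] at h1
  have h2 := h1.2.2 φ
  have e3 : ∀ i ∈ φ.fv, ext I i = v i := by
    intro i hi
    have h3 := fv_le φ i hi
    unfold ext
    rw [List.getD_eq_getElem _ _ (by omega)]
    simp only [hI, List.getElem_map, List.getElem_range]
  have e4 : ∀ i ∈ φ.fv, ext (I.map ι) i = ι (v i) := by
    intro i hi
    have h3 := fv_le φ i hi
    unfold ext
    rw [List.getD_eq_getElem _ _ (by rw [List.length_map]; omega)]
    simp only [hI, List.getElem_map, List.getElem_range]
  unfold Ev at h2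
  rw [sat_congr B φ _ _ e3, sat_congr N φ (ext (I.map ι)) (ι ∘ v) e4] at h2
  exact h2

/-- Atomicity goes down. -/
theorem ElemEmb.atomic_down (h : ElemEmb B L ι) {Y : List ℕ} (hY : Y ≠ [])
    (hat : Atomic L (Y.map ι)) : Atomic B Y := by
  intro Z
  have hne : ∀ Z : List ℕ, Y ++ Z ≠ [] := fun Z h0 => hY (List.append_eq_nil_iff.1 h0).1
  obtain ⟨θ, h1, h2⟩ := hat (Z.map ι)
  rw [← List.map_append] at h1
  refine ⟨θ, ((h.te (hne Z)).2.2 θ).2 h1, fun Z' hZ' h3 => ?_⟩
  have h4 := h2 (Z'.map ι) (by rw [List.length_map, List.length_map, hZ']) (by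
    rw [← List.map_append]
    exact ((h.te (hne Z')).2.2 θ).1 h3)
  rw [← List.map_append, ← List.map_append] at h4
  exact ((h.te (hne Z')).trans h4).trans (h.te (hne Z)).symm

/-- Isolation goes up: `θ` isolates `bb ++ C` over `bb` in `B`; for every `ψ` one of
`∀ z (θ → ± ψ)` holds in `B` at `bb`, hence in `L` at the image. -/
theorem ElemEmb.isol_up (h : ElemEmb B L ι) {bb : List ℕ} (hbb : bb ≠ [])
    (hat : Atomic B bb) (C : List ℕ) : ∃ θ : Fml, Ev L θ (bb.map ι ++ C.map ι) ∧
      ∀ C' : List ℕ, C'.length = C.length → Ev L θ (bb.map ι ++ C') →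
        TE L (bb.map ι ++ C') L (bb.map ι ++ C.map ι) := by
  have hne : ∀ Z : List ℕ, bb ++ Z ≠ [] := fun Z h0 => hbb (List.append_eq_nil_iff.1 h0).1
  have hbb' : bb.map ι ≠ [] := fun h0 => hbb (List.map_eq_nil_iff.1 h0)
  obtain ⟨θ, h1, h2⟩ := hat C
  refine ⟨θ, ?_, fun C' hC' h3 => ?_⟩
  · rw [← List.map_append]
    exact ((h.te (hne C)).2.2 θ).1 h1
  · have key : ∀ ψ, Ev L ψ (bb.map ι ++ C') → Ev L ψ (bb.map ι ++ C.map ι) := by
      intro ψ h4
      have h5 : Ev L (exs (bb.map ι).length C.length (.and θ ψ)) (bb.map ι) := by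
        rw [ev_exs _ _ hbb']
        exact ⟨C', hC', h3, h4⟩
      rw [← (h.te hbb).2.2, List.length_map, ev_exs _ _ hbb] at h5
      obtain ⟨C'', hC'', h6, h7⟩ := h5
      rw [← List.map_append]
      exact ((h.te (hne C)).2.2 ψ).1 (((h2 C'' hC'' h6).2.2 ψ).1 h7)
    refine ⟨fun h0 => hbb' (List.append_eq_nil_iff.1 h0).1, ?_, fun ψ => ⟨key ψ, fun h4 => ?_⟩⟩
    · simp only [List.length_append, List.length_map, hC']
    · by_contra h5
      exact key (.neg ψ) h5 h4

end Pool.Agent.H97.EM
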