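import Pool.Agent.H97.EM.Lim.Dir
import Pool.Agent.H97.EM.Find

/-! The names of the direct limit are limit computable. -/

namespace Pool.Agent.H97.EM

/-- Iterate the approximations; finitely many values of `f` are used. -/
theorem limComp_iter {f : ℕ → ℕ} (hf : LimComp f) :
    LimComp fun p : ℕ × ℕ => f^[p.1] p.2 := by
  obtain ⟨g, hg, hc⟩ := hf
  refine ⟨fun p s => (Nat.rec (motive := fun _ => ℕ) p.2 (fun _ ih => g ih s) p.1 : ℕ), ?_, ?_⟩
  · have h1 : Computable fun a : (ℕ × ℕ) × ℕ =>
        (Nat.rec (motive := fun _ => ℕ) a.1.2 (fun _ ih => g ih a.2) a.1.1 : ℕ) := by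
      refine Computable.nat_rec (f := fun a : (ℕ × ℕ) × ℕ => a.1.1) (g := fun a : (ℕ × ℕ) × ℕ => a.1.2)
        (h := fun (a : (ℕ × ℕ) × ℕ) (q : ℕ × ℕ) => g q.2 a.2) (Computable.fst.comp Computable.fst)
        (Computable.snd.comp Computable.fst) ?_
      exact (hg.comp (Computable.snd.comp Computable.snd) (Computable.snd.comp Computable.fst))
    exact h1
  · rintro ⟨k, x⟩
    induction k with
    | zero => exact ⟨0, fun s _ => rfl⟩
    | succ k ih =>
      obtain ⟨s1, h1⟩ := ih
      obtain ⟨s2, h2⟩ := hc (f^[k] x)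
      refine ⟨max s1 s2, fun s hs => ?_⟩
      have h3 := h1 s ((le_max_left _ _).trans hs)
      have h4 := h2 s ((le_max_right _ _).trans hs)
      simp only [] at h3 ⊢
      rw [Function.iterate_succ_apply', ← h4, ← h3]

theorem limComp_names {f : ℕ → ℕ} (hf : LimComp f) :
    LimComp fun n => (List.range n).map (wn f n) := by
  obtain ⟨h, hh, hc⟩ := limComp_iter hf
  refine ⟨fun n s => (Nat.rec (motive := fun _ => List ℕ) []
    (fun v ih => ih ++ [h (n - v.unpair.1, v.unpair.2) s]) n : List ℕ), ?_, ?_⟩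
  · have h1 : Computable fun a : ℕ × ℕ => (Nat.rec (motive := fun _ => List ℕ) []
        (fun v ih => ih ++ [h (a.1 - v.unpair.1, v.unpair.2) a.2]) a.1 : List ℕ) := by
      refine Computable.nat_rec (f := fun a : ℕ × ℕ => a.1) (g := fun _ : ℕ × ℕ => ([] : List ℕ))
        (h := fun (a : ℕ × ℕ) (q : ℕ × List ℕ) => q.2 ++ [h (a.1 - q.1.unpair.1, q.1.unpair.2) a.2])
        Computable.fst (Computable.const []) ?_
      have hv : Computable fun x : (ℕ × ℕ) × (ℕ × List ℕ) => x.2.1 := Computable.fst.comp Computable.snd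
      have hu : Computable fun x : (ℕ × ℕ) × (ℕ × List ℕ) => x.2.1.unpair := Computable.unpair.comp hv
      have hn : Computable fun x : (ℕ × ℕ) × (ℕ × List ℕ) => x.1.1 := Computable.fst.comp Computable.fst
      have hs : Computable fun x : (ℕ × ℕ) × (ℕ × List ℕ) => x.1.2 := Computable.snd.comp Computable.fst
      have hsub : Computable fun x : (ℕ × ℕ) × (ℕ × List ℕ) => x.1.1 - x.2.1.unpair.1 :=
        (Primrec.nat_sub.to_comp).comp hn (Computable.fst.comp hu)
      have hval : Computable fun x : (ℕ × ℕ) × (ℕ × List ℕ) =>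
          h (x.1.1 - x.2.1.unpair.1, x.2.1.unpair.2) x.1.2 :=
        hh.comp (Computable.pair hsub (Computable.snd.comp hu)) hs
      exact Computable.list_concat.comp (Computable.snd.comp Computable.snd) hval
    exact h1
  · intro n
    choose s0 hs0 using hc
    have key : ∀ m, m ≤ n → ∃ s1, ∀ s, s1 ≤ s → (Nat.rec (motive := fun _ => List ℕ) []
        (fun v ih => ih ++ [h (n - v.unpair.1, v.unpair.2) s]) m : List ℕ) = (List.range m).map (wn f n) := by
      intro m
      induction m with
      | zero => intro _; exact ⟨0, fun s _ => rfl⟩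
      | succ m ih =>
        intro hm
        obtain ⟨s1, h1⟩ := ih (by omega)
        refine ⟨max s1 (s0 (n - m.unpair.1, m.unpair.2)), fun s hs => ?_⟩
        have h3 := h1 s ((le_max_left _ _).trans hs)
        have h4 := hs0 (n - m.unpair.1, m.unpair.2) s ((le_max_right _ _).trans hs)
        rw [List.range_succ, List.map_append, ← h3]
        simp only [List.map_cons, List.map_nil]
        rw [h4]
        rfl
    obtain ⟨s1, h1⟩ := key n le_rfl
    exact ⟨s1, h1⟩

end Pool.Agent.H97.EM
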