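import Pool.Agent.H97.EM.Lim.Stp
import Pool.Agent.H97.EM.Lim.Dir

/-! The direct limit is a limit model over `B`. -/

namespace Pool.Agent.H97.EM

variable {B L : Str} {f : ℕ → ℕ} {ι : ℕ → ℕ → ℕ}

theorem dir_range (hf : ∀ i x, ι i x = ι (i + 1) (f x)) {n m : ℕ} (hnm : n ≤ m) (x : ℕ) :
    ι n x = ι m (f^[m - n] x) := by
  obtain ⟨k, rfl⟩ := Nat.exists_eq_add_of_le hnm
  rw [Nat.add_sub_cancel_left]
  clear hnm
  induction k with
  | zero => rfl
  | succ k ih =>
    rw [ih, Function.iterate_succ_apply', ← Nat.add_assoc]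
    exact hf _ _

/-- Every tuple of the limit is the image of a tuple of a late copy. -/
private theorem dir_list (hf : ∀ i x, ι i x = ι (i + 1) (f x)) (hs : ∀ z, ∃ i x, z = ι i x) :
    ∀ l : List ℕ, ∃ (n : ℕ) (C : List ℕ), C.map (ι n) = l
  | [] => ⟨0, [], rfl⟩
  | z :: l => by
    obtain ⟨n, C, hC⟩ := dir_list hf hs l
    obtain ⟨i, x, hx⟩ := hs z
    refine ⟨max i n, f^[max i n - i] x :: C.map (f^[max i n - n]), ?_⟩
    rw [List.map_cons, List.map_map, ← dir_range hf (le_max_left i n) x, ← hx, ← hC]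
    congr 1
    refine List.map_congr_left fun y _ => ?_
    rw [Function.comp_apply, ← dir_range hf (le_max_right i n) y]

private theorem dir_map (hf : ∀ i x, ι i x = ι (i + 1) (f x)) (n : ℕ) (bb : List ℕ) :
    bb.map (ι n) = (bb.map f).map (ι (n + 1)) := by
  rw [List.map_map]
  exact List.map_congr_left fun y _ => hf n y

/-- If `L` were atomic over `c`, a tuple in the range of `ι n`, then over
`bb.map (ι n) = (bb.map f).map (ι (n+1))` by `isol_up` and `Atomic.change`, so `B` would be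
atomic over `bb.map f` by `atomic_down`. -/
theorem dir_not_almostPrime (hι : ∀ i, ElemEmb B L (ι i)) (hf : ∀ i x, ι i x = ι (i + 1) (f x))
    (hs : ∀ z, ∃ i x, z = ι i x) {bb : List ℕ} (hbb : bb ≠ []) (hat : Atomic B bb)
    (hY : ¬ Atomic B (bb.map f)) : ¬ AlmostPrime L := by
  intro h
  obtain ⟨c, _, hc⟩ := almostPrime_iff.1 h
  obtain ⟨n, C, rfl⟩ := dir_list hf hs c
  obtain ⟨θ, h1, h2⟩ := (hι n).isol_up hbb hat C
  have h3 : Atomic L (bb.map (ι n)) := by
    refine Atomic.change hc (fun h0 => hbb (List.map_eq_nil_iff.1 h0)) h1 fun b' hb' => h2 b' ?_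
    rw [hb', List.length_map]
  rw [dir_map hf] at h3
  exact hY ((hι (n + 1)).atomic_down (fun h0 => hbb (List.map_eq_nil_iff.1 h0)) h3)

theorem dir_limitOver (hι : ∀ i, ElemEmb B L (ι i)) (hf : ∀ i x, ι i x = ι (i + 1) (f x))
    (hs : ∀ z, ∃ i x, z = ι i x) {bb : List ℕ} (hbb : bb ≠ []) (hat : Atomic B bb)
    (hY : ¬ Atomic B (bb.map f)) : LimitOver B L := by
  refine ⟨dir_not_almostPrime hι hf hs hbb hat hY, ι, hι, fun n => ?_, fun x => ?_⟩
  · rintro _ ⟨x, rfl⟩
    exact ⟨f x, (hf n x).symm⟩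
  · obtain ⟨i, y, hy⟩ := hs x
    exact ⟨i, y, hy.symm⟩

theorem dir_cov (hι : ∀ i, ElemEmb B L (ι i)) (hf : ∀ i x, ι i x = ι (i + 1) (f x))
    (hs : ∀ z, ∃ i x, z = ι i x) {bb : List ℕ} (hbb : bb ≠ []) : Cov B bb L := by
  intro A
  obtain ⟨n, C, rfl⟩ := dir_list hf hs A
  refine ⟨bb.map (ι n), C, List.length_map _, (List.length_map _).symm, ?_⟩
  rw [← List.map_append]
  exact ((hι n).te fun h0 => hbb (List.append_eq_nil_iff.1 h0).1).symm

/-- The enumeration `a v = ι (unpair v).1 (unpair v).2` of `L` and the names. -/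
theorem dir_te (hι : ∀ i, ElemEmb B L (ι i)) (hf : ∀ i x, ι i x = ι (i + 1) (f x)) {n : ℕ}
    (hn : 0 < n) : TE L ((List.range n).map fun v => ι v.unpair.1 v.unpair.2) B
      ((List.range n).map (wn f n)) := by
  have h1 : (List.range n).map (fun v => ι v.unpair.1 v.unpair.2) =
      ((List.range n).map (wn f n)).map (ι n) := by
    rw [List.map_map]
    refine List.map_congr_left fun v hv => ?_
    have h2 : v.unpair.1 ≤ n := (Nat.unpair_left_le v).trans (List.mem_range.1 hv).le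
    rw [Function.comp_apply, dir_range hf h2]
    rfl
  rw [h1]
  refine ((hι n).te fun h0 => ?_).symm
  have h2 := congrArg List.length h0
  rw [List.length_map, List.length_range, List.length_nil] at h2
  omega

end Pool.Agent.H97.EM
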