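import Pool.Agent.H97.EM.Lim.Emb
import Pool.Agent.H97.EM.Find
import Pool.Agent.H97.EM.Prim

/-! Limit computable elementary embeddings. -/

namespace Pool.Agent.H97.EM

/-- Recursion with a limit computable choice: if `h (n, u) s` has the limit `H (n, u)` and
`F (n + 1) = F n ++ [H (n, F n)]`, then `F` is limit computable (`g 0 s = []`,
`g (n + 1) s = g n s ++ [h (n, g n s) s]`). -/
theorem limComp_rec {H : ℕ × List ℕ → ℕ} (hH : LimComp H) {F : ℕ → List ℕ} (h0 : F 0 = [])
    (hF : ∀ n, F (n + 1) = F n ++ [H (n, F n)]) : LimComp F := by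
  obtain ⟨h, hc, hl⟩ := hH
  let g : ℕ → ℕ → List ℕ := fun n s =>
    Nat.rec (motive := fun _ => List ℕ) [] (fun k r => r ++ [h (k, r) s]) n
  refine ⟨g, ?_, ?_⟩
  · have h1 : Computable fun p : ℕ × ℕ => (Nat.rec (motive := fun _ => List ℕ) []
        (fun k r => r ++ [h (k, r) p.2]) p.1 : List ℕ) := by
      refine Computable.nat_rec (f := fun p : ℕ × ℕ => p.1) (g := fun _ => ([] : List ℕ))
        (h := fun p (q : ℕ × List ℕ) => q.2 ++ [h (q.1, q.2) p.2]) Computable.fst
        (Computable.const []) ?_
      have h2 : Computable fun x : (ℕ × ℕ) × (ℕ × List ℕ) => h (x.2.1, x.2.2) x.1.2 :=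
        hc.comp (Computable.pair (Computable.fst.comp Computable.snd)
          (Computable.snd.comp Computable.snd)) (Computable.snd.comp Computable.fst)
      have h3 : Computable fun x : (ℕ × ℕ) × (ℕ × List ℕ) => x.2.2 ++ [h (x.2.1, x.2.2) x.1.2] :=
        Computable.list_concat.comp (Computable.snd.comp Computable.snd) h2
      exact h3.to₂
    exact h1
  · intro n
    induction n with
    | zero => exact ⟨0, fun s _ => h0.symm⟩
    | succ n ih =>
      obtain ⟨s1, h1⟩ := ih
      obtain ⟨s2, h2⟩ := hl (n, F n)
      refine ⟨max s1 s2, fun s hs => ?_⟩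
      have e1 : g n s = F n := h1 s (le_trans (le_max_left _ _) hs)
      have e2 : h (n, F n) s = H (n, F n) := h2 s (le_trans (le_max_right _ _) hs)
      show g n s ++ [h (n, g n s) s] = F (n + 1)
      rw [hF, e1, e2]

/-- the formulas with numbers below `p.2` agree at the two tuples of the same length -/
private def tab (D : Fml × List ℕ → Bool) (p : (List ℕ × List ℕ) × ℕ) : Bool :=
  decide (p.1.1.length = p.1.2.length) && (List.range p.2).all fun c =>
    decide (D (Denumerable.ofNat Fml c, p.1.1) = D (Denumerable.ofNat Fml c, p.1.2))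

private theorem tab_comp {D : Fml × List ℕ → Bool} (hD : Computable D) : Computable (tab D) := by
  have hdec : Primrec fun q : Bool × Bool => decide (q.1 = q.2) :=
    Primrec.eq.decide
  have hdecn : Primrec fun q : ℕ × ℕ => decide (q.1 = q.2) := Primrec.eq.decide
  have h1 : Computable₂ fun (p : (List ℕ × List ℕ) × ℕ) (c : ℕ) =>
      decide (D (Denumerable.ofNat Fml c, p.1.1) = D (Denumerable.ofNat Fml c, p.1.2)) := by
    have ha : Computable fun x : ((List ℕ × List ℕ) × ℕ) × ℕ =>
        D (Denumerable.ofNat Fml x.2, x.1.1.1) :=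
      hD.comp (Computable.pair ((Computable.ofNat Fml).comp Computable.snd)
        (Computable.fst.comp (Computable.fst.comp Computable.fst)))
    have hb : Computable fun x : ((List ℕ × List ℕ) × ℕ) × ℕ =>
        D (Denumerable.ofNat Fml x.2, x.1.1.2) :=
      hD.comp (Computable.pair ((Computable.ofNat Fml).comp Computable.snd)
        (Computable.snd.comp (Computable.fst.comp Computable.fst)))
    exact (hdec.to_comp.comp (Computable.pair ha hb)).to₂
  have h2 := ball_comp h1 (n := fun p : (List ℕ × List ℕ) × ℕ => p.2) Computable.snd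
  have h3 : Computable fun p : (List ℕ × List ℕ) × ℕ => decide (p.1.1.length = p.1.2.length) :=
    hdecn.to_comp.comp (Computable.pair
      (Computable.list_length.comp (Computable.fst.comp Computable.fst))
      (Computable.list_length.comp (Computable.snd.comp Computable.fst)))
  exact Primrec.and.to_comp.comp h3 h2

private theorem tab_mono {D : Fml × List ℕ → Bool} {a b : List ℕ} {s s' : ℕ} (h : s ≤ s')
    (h1 : tab D ((a, b), s') = true) : tab D ((a, b), s) = true := by
  simp only [tab, Bool.and_eq_true, decide_eq_true_eq, List.all_eq_true, List.mem_range] at h1 ⊢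
  exact ⟨h1.1, fun c hc => h1.2 c (lt_of_lt_of_le hc h)⟩

private theorem tab_iff {B : Str} {D : Fml × List ℕ → Bool}
    (hD : ∀ p, D p = true ↔ Ev B p.1 p.2) {a b : List ℕ} (ha : a ≠ []) :
    TE B a B b ↔ ∀ s, tab D ((a, b), s) = true := by
  simp only [tab, Bool.and_eq_true, decide_eq_true_eq, List.all_eq_true, List.mem_range]
  constructor
  · intro h s
    refine ⟨h.2.1, fun c _ => ?_⟩
    rw [Bool.eq_iff_iff, hD, hD]
    exact h.2.2 _
  · intro h
    refine ⟨ha, (h 0).1, fun φ => ?_⟩
    have h1 := (h (Encodable.encode φ + 1)).2 (Encodable.encode φ) (Nat.lt_succ_self _)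
    rw [Denumerable.ofNat_encode, Bool.eq_iff_iff, hD, hD] at h1
    exact h1

private theorem tab_not {B : Str} {D : Fml × List ℕ → Bool}
    (hD : ∀ p, D p = true ↔ Ev B p.1 p.2) {a b : List ℕ} (ha : a ≠ []) (h : ¬ TE B a B b) :
    ∃ s₀, ∀ s, s₀ ≤ s → tab D ((a, b), s) = false := by
  rw [tab_iff hD ha] at h
  push Not at h
  obtain ⟨s₀, hs⟩ := h
  refine ⟨s₀, fun s hle => ?_⟩
  rw [Bool.eq_false_iff]
  intro h1
  exact hs (tab_mono hle h1)

open Classical in
/-- the choice of the next entry -/
private theorem exists_choice {B : Str} (hB : CompStr B) {bb Y : List ℕ} (hbb : bb ≠ [])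
    (hat : Atomic B bb) (hl : Y.length = bb.length) : ∃ H : ℕ × List ℕ → ℕ, LimComp H ∧
    ∀ n u, TE B (bb ++ List.range n) B (Y ++ u) →
      TE B (bb ++ List.range (n + 1)) B (Y ++ u ++ [H (n, u)]) := by
  obtain ⟨D, hDc, hD⟩ := comp_decide hB
  have hex : ∀ n u, TE B (bb ++ List.range n) B (Y ++ u) →
      ∃ y, TE B (bb ++ List.range (n + 1)) B (Y ++ u ++ [y]) := by
    intro n u h
    obtain ⟨W, hW, h1⟩ := hat.extend hl h.symm [n]
    obtain ⟨y, rfl⟩ := List.length_eq_one_iff.1 hW
    refine ⟨y, ?_⟩
    rw [List.range_succ, ← List.append_assoc]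
    exact h1.symm
  have hne : ∀ l : List ℕ, bb ++ l ≠ [] := fun l h => hbb (List.append_eq_nil_iff.1 h).1
  let H : ℕ × List ℕ → ℕ := fun p =>
    if h : TE B (bb ++ List.range p.1) B (Y ++ p.2) then Nat.find (hex p.1 p.2 h) else 0
  refine ⟨H, ⟨fun p s => cond (tab D ((bb ++ List.range p.1, Y ++ p.2), s))
    (((List.range (s + 1)).find? fun y =>
      tab D ((bb ++ List.range (p.1 + 1), Y ++ p.2 ++ [y]), s)).getD 0) 0, ?_, ?_⟩, ?_⟩
  · have hr : Computable fun x : (ℕ × List ℕ) × ℕ => bb ++ List.range x.1.1 :=
      Computable.list_append.comp (Computable.const bb)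
        (Primrec.list_range.to_comp.comp (Computable.fst.comp Computable.fst))
    have hY : Computable fun x : (ℕ × List ℕ) × ℕ => Y ++ x.1.2 :=
      Computable.list_append.comp (Computable.const Y) (Computable.snd.comp Computable.fst)
    have h1 : Computable fun x : (ℕ × List ℕ) × ℕ =>
        tab D ((bb ++ List.range x.1.1, Y ++ x.1.2), x.2) :=
      (tab_comp hDc).comp (Computable.pair (Computable.pair hr hY) Computable.snd)
    have hr2 : Computable fun x : ((ℕ × List ℕ) × ℕ) × ℕ => bb ++ List.range (x.1.1.1 + 1) :=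
      Computable.list_append.comp (Computable.const bb)
        (Primrec.list_range.to_comp.comp (Computable.succ.comp
          (Computable.fst.comp (Computable.fst.comp Computable.fst))))
    have hY2 : Computable fun x : ((ℕ × List ℕ) × ℕ) × ℕ => Y ++ x.1.1.2 ++ [x.2] :=
      Computable.list_concat.comp (hY.comp Computable.fst) Computable.snd
    have h2 : Computable₂ fun (x : (ℕ × List ℕ) × ℕ) (y : ℕ) =>
        tab D ((bb ++ List.range (x.1.1 + 1), Y ++ x.1.2 ++ [y]), x.2) := by
      have := (tab_comp hDc).comp (Computable.pair (Computable.pair hr2 hY2)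
        (Computable.snd.comp (Computable.fst (α := (ℕ × List ℕ) × ℕ) (β := ℕ))))
      exact this.to₂
    have h3 := bfind_comp h2 (n := fun x : (ℕ × List ℕ) × ℕ => x.2 + 1)
      (Computable.succ.comp Computable.snd)
    have h4 : Computable fun x : (ℕ × List ℕ) × ℕ => ((List.range (x.2 + 1)).find? fun y =>
        tab D ((bb ++ List.range (x.1.1 + 1), Y ++ x.1.2 ++ [y]), x.2)).getD 0 :=
      Computable.option_getD h3 (Computable.const 0)
    exact (Computable.cond h1 h4 (Computable.const 0)).to₂
  · rintro ⟨n, u⟩
    by_cases h : TE B (bb ++ List.range n) B (Y ++ u)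
    · have hH : H (n, u) = Nat.find (hex n u h) := dif_pos h
      set y0 := Nat.find (hex n u h) with hy0
      have hspec : TE B (bb ++ List.range (n + 1)) B (Y ++ u ++ [y0]) := Nat.find_spec (hex n u h)
      have hmin : ∀ y, y < y0 → ∃ s₀, ∀ s, s₀ ≤ s →
          tab D ((bb ++ List.range (n + 1), Y ++ u ++ [y]), s) = false := by
        intro y hy
        exact tab_not hD (hne _) (Nat.find_min (hex n u h) hy)
      choose! S hS using hmin
      refine ⟨max y0 ((Finset.range y0).sup S), fun s hs => ?_⟩
      have h1 : tab D ((bb ++ List.range n, Y ++ u), s) = true := (tab_iff hD (hne _)).1 h s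
      have h2 : ((List.range (s + 1)).find? fun y =>
          tab D ((bb ++ List.range (n + 1), Y ++ u ++ [y]), s)) = some y0 := by
        rw [List.find?_range_eq_some]
        refine ⟨(tab_iff hD (hne _)).1 hspec s, ?_, ?_⟩
        · rw [List.mem_range]
          have := le_trans (le_max_left _ _) hs
          omega
        · intro j hj
          rw [hS j hj s (le_trans (le_trans (Finset.le_sup (f := S) (Finset.mem_range.2 hj))
            (le_max_right _ _)) hs)]
          rfl
      show cond (tab D ((bb ++ List.range n, Y ++ u), s))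
        (((List.range (s + 1)).find? fun y =>
          tab D ((bb ++ List.range (n + 1), Y ++ u ++ [y]), s)).getD 0) 0 = H (n, u)
      rw [h1, h2, hH]
      rfl
    · have hH : H (n, u) = 0 := dif_neg h
      obtain ⟨s₀, hs₀⟩ := tab_not hD (hne _) h
      refine ⟨s₀, fun s hs => ?_⟩
      show cond (tab D ((bb ++ List.range n, Y ++ u), s))
        (((List.range (s + 1)).find? fun y =>
          tab D ((bb ++ List.range (n + 1), Y ++ u ++ [y]), s)).getD 0) 0 = H (n, u)
      rw [hs₀ s hs, hH]
      rfl
  · intro n u h
    have hH : H (n, u) = Nat.find (hex n u h) := dif_pos h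
    rw [hH]
    exact Nat.find_spec (hex n u h)

/-- `F n` is a list of length `n` with
`TE B (bb ++ List.range n) B (Y ++ F n)`, the next entry is the least possible one
(`Atomic.extend`); the least `y` with `TE B (bb ++ List.range (n + 1)) B (Y ++ u ++ [y])` is the
limit of: the least `y ≤ s` such that the formulas with numbers at most `s` agree, or `0`.
`f n` is the entry number `n` of `F (n + 1)`; `elemEmb_of_te`. The entries of `bb` are among
`0, .., n - 1` for large `n`, so `bb.map f = Y`. -/
theorem exists_f {B : Str} (hB : CompStr B) {bb Y : List ℕ} (hbb : bb ≠ [])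
    (hat : Atomic B bb) (hY : TE B bb B Y) :
    ∃ f : ℕ → ℕ, ElemEmb B B f ∧ bb.map f = Y ∧ LimComp f := by
  have hl : Y.length = bb.length := hY.2.1.symm
  obtain ⟨H, hH, hstep⟩ := exists_choice hB hbb hat hl
  obtain ⟨F, hF0, hFs⟩ : ∃ F : ℕ → List ℕ, F 0 = [] ∧ ∀ n, F (n + 1) = F n ++ [H (n, F n)] :=
    ⟨fun n => Nat.rec (motive := fun _ => List ℕ) [] (fun k r => r ++ [H (k, r)]) n, rfl,
      fun _ => rfl⟩
  have hlen : ∀ n, (F n).length = n := by
    intro n
    induction n with
    | zero => rw [hF0]; rfl
    | succ n ih => rw [hFs, List.length_append, ih]; rfl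
  have hTE : ∀ n, TE B (bb ++ List.range n) B (Y ++ F n) := by
    intro n
    induction n with
    | zero => rw [hF0, List.range_zero, List.append_nil, List.append_nil]; exact hY
    | succ n ih =>
      rw [hFs, ← List.append_assoc]
      exact hstep n _ ih
  let f : ℕ → ℕ := fun n => (F (n + 1)).getD n 0
  have hf : ∀ n, f n = H (n, F n) := by
    intro n
    show (F (n + 1)).getD n 0 = _
    rw [hFs, List.getD_eq_getElem?_getD, List.getElem?_append_right (by rw [hlen]), hlen,
      Nat.sub_self]
    rfl
  have hFf : ∀ n, F n = (List.range n).map f := by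
    intro n
    induction n with
    | zero => rw [hF0]; rfl
    | succ n ih => rw [hFs, List.range_succ, List.map_append, ← ih, List.map_singleton, hf]
  refine ⟨f, ?_, ?_, ?_⟩
  · refine elemEmb_of_te fun n hn => ?_
    rw [← hFf]
    refine (hTE n).right hl.symm ?_
    intro h0
    have := congrArg List.length h0
    rw [List.length_range, List.length_nil] at this
    omega
  · refine List.ext_getElem (by rw [List.length_map, hl]) fun i h1 h2 => ?_
    rw [List.getElem_map]
    rw [List.length_map] at h1
    set m := bb[i] with hm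
    have h3 := (hTE (m + 1)).2.2 (.eq i (bb.length + m))
    have hA : Ev B (.eq i (bb.length + m)) (bb ++ List.range (m + 1)) := by
      show ext (bb ++ List.range (m + 1)) i = ext (bb ++ List.range (m + 1)) (bb.length + m)
      unfold ext
      rw [List.getD_eq_getElem _ _ (by rw [List.length_append]; omega),
        List.getD_eq_getElem _ _ (by rw [List.length_append, List.length_range]; omega),
        List.getElem_append_left h1, List.getElem_append_right (by omega), ← hm]
      simp
    have hB' := h3.1 hA
    have hB2 : ext (Y ++ F (m + 1)) i = ext (Y ++ F (m + 1)) (bb.length + m) := hB'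
    unfold ext at hB2
    rw [List.getD_eq_getElem _ _ (by rw [List.length_append]; omega),
        List.getD_eq_getElem _ _ (by rw [List.length_append, hlen, hl]; omega),
        List.getElem_append_left h2, List.getElem_append_right (by omega)] at hB2
    rw [hB2]
    show (F (m + 1)).getD m 0 = _
    rw [List.getD_eq_getElem _ _ (by rw [hlen]; omega)]
    congr 1
    omega
  · obtain ⟨g, hg, hgl⟩ := limComp_rec hH hF0 hFs
    refine ⟨fun n s => (g (n + 1) s).getD n 0, ?_, ?_⟩
    · have h1 : Computable fun x : ℕ × ℕ => g (x.1 + 1) x.2 :=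
        hg.comp (Computable.succ.comp Computable.fst) Computable.snd
      have h2 := (Primrec.list_getD (α := ℕ) 0).to_comp.comp h1 Computable.fst
      exact h2
    · intro n
      obtain ⟨s₀, hs⟩ := hgl (n + 1)
      exact ⟨s₀, fun s h => by
        show (g (n + 1) s).getD n 0 = (F (n + 1)).getD n 0
        rw [hs s h]⟩

end Pool.Agent.H97.EM
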