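import Pool.Agent.H97.EM.Lim.Emb

/-! A limit model over `B` gives a tuple of the type of `bb` over which `B` is not atomic. -/

namespace Pool.Agent.H97.EM

/-- Increasing ranges. -/
private theorem range_mono {ι : ℕ → ℕ → ℕ} (h : ∀ n, Set.range (ι n) ⊆ Set.range (ι (n + 1)))
    {m n : ℕ} (hmn : m ≤ n) : Set.range (ι m) ⊆ Set.range (ι n) :=
  monotone_nat_of_le_succ (f := fun n => Set.range (ι n)) h hmn

/-- A list of elements of a range is the image of a list. -/
private theorem list_lift {f : ℕ → ℕ} : ∀ l : List ℕ, (∀ x ∈ l, x ∈ Set.range f) →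
    ∃ C : List ℕ, C.map f = l
  | [], _ => ⟨[], rfl⟩
  | x :: l, h => by
    obtain ⟨C, hC⟩ := list_lift l fun y hy => h y (List.mem_cons_of_mem _ hy)
    obtain ⟨c, hc⟩ := h x List.mem_cons_self
    exact ⟨c :: C, by rw [List.map_cons, hC, hc]⟩

/-- A list is contained in the range of some `ι n`. -/
private theorem list_range {ι : ℕ → ℕ → ℕ} (h : ∀ n, Set.range (ι n) ⊆ Set.range (ι (n + 1)))
    (h' : ∀ x, ∃ n, x ∈ Set.range (ι n)) : ∀ l : List ℕ, ∃ n, ∀ x ∈ l, x ∈ Set.range (ι n)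
  | [] => ⟨0, fun x hx => absurd hx List.not_mem_nil⟩
  | x :: l => by
    obtain ⟨n, hn⟩ := list_range h h' l
    obtain ⟨m, hm⟩ := h' x
    refine ⟨max m n, fun y hy => ?_⟩
    rcases List.mem_cons.1 hy with rfl | hy
    · exact range_mono h (le_max_left _ _) hm
    · exact range_mono h (le_max_right _ _) (hn y hy)

/-- Otherwise `N` is atomic over `(bb).map (ι 0)`: a tuple `C` of `N` is in the range of some
`ι n` (finitely many elements, increasing ranges), as well as `bb.map (ι 0) = Y.map (ι n)`;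
`TE B Y B bb`, so `B` is atomic over `Y`, and `isol_up` isolates `C` over `Y.map (ι n)`. -/
theorem exists_step {B N : Str} {bb : List ℕ} (hbb : bb ≠ []) (h : LimitOver B N) :
    ∃ Y : List ℕ, TE B bb B Y ∧ ¬ Atomic B Y := by
  by_contra hcon
  push Not at hcon
  obtain ⟨hN, ι, h1, h2, h3⟩ := h
  refine hN (almostPrime_iff.2 ⟨bb.map (ι 0), fun h0 => hbb (List.map_eq_nil_iff.1 h0), ?_⟩)
  intro Z
  obtain ⟨n, hn⟩ := list_range h2 h3 Z
  obtain ⟨C, rfl⟩ := list_lift Z hn
  obtain ⟨Y, hY⟩ := list_lift (f := ι n) (bb.map (ι 0)) fun x hx => by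
    obtain ⟨y, _, rfl⟩ := List.mem_map.1 hx
    exact range_mono h2 (Nat.zero_le n) ⟨y, rfl⟩
  have hYne : Y ≠ [] := by
    rintro rfl
    exact hbb (List.map_eq_nil_iff.1 hY.symm)
  have hTE : TE B bb B Y := by
    have h4 := (h1 0).te hbb
    have h5 := (h1 n).te hYne
    rw [hY] at h5
    exact h4.trans h5.symm
  obtain ⟨θ, h6, h7⟩ := (h1 n).isol_up hYne (hcon Y hTE) C
  rw [hY] at h6 h7
  refine ⟨θ, h6, fun Z' hZ' => h7 Z' ?_⟩
  rw [hZ', List.length_map]

end Pool.Agent.H97.EM
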