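import Pool.Agent.H97.EM.Lim.Two
import Pool.Agent.H97.EM.Lim.Ch5

/-! Unique limit models. -/

namespace Pool.Agent.H97.EM

theorem unique_limits {T : Set Fml} (hc : IsComplete T) (hf : FinMany T) (ht : CompTypes T)
    (hu : ∀ B N N', IsModel B T → AlmostPrime B → LimitOver B N → LimitOver B N' → Iso N N')
    {M : Str} (hM : IsModel M T) : DecModel M := by
  by_cases h : AlmostPrime M
  · exact almostPrime_dec hc hf ht hM h
  · have hA : Atm T := by
      intro M' hM' a ha
      obtain ⟨K, hK, hKc, hfull⟩ := exists_full hc hf ht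
      obtain ⟨B, bb, h1, -, h3, h4⟩ := exists_atomic hc.sent hK hKc hfull M' hM' a ha
      exact ⟨B, bb, h1, h3, h4⟩
    obtain ⟨B, hB, hap, hl⟩ := exists_limitOver hf hA hM h
    obtain ⟨L, hL, N', hi, hN'⟩ := limit_dec hc hf ht hB hap hl
    exact ⟨N', iso_trans (hu B M L hB hap hl hL) hi, hN'⟩

end Pool.Agent.H97.EM
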