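import Pool.Agent.H97.EM.Lim.Nap
import Pool.Agent.H97.EM.Lim.Sel
import Pool.Agent.H97.EM.Lim.Lcf
import Pool.Agent.H97.EM.Inj.Main
import Pool.Agent.H97.EM.K
import Pool.Agent.H97.EM.Gr.Main
import Pool.Agent.H97.EM.At2

/-! Almost prime models are decidable, and over every almost prime model which has a limit model
there is a decidable one. -/

namespace Pool.Agent.H97.EM

/-- `exists_atomic` for `B` itself and `Atomic.unique`. -/
theorem almostPrime_copy {T : Set Fml} (hc : IsComplete T) (hf : FinMany T) (ht : CompTypes T)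
    {B : Str} (hB : IsModel B T) (h : AlmostPrime B) : ∃ B' bb, bb ≠ [] ∧ Iso B B' ∧
      CompStr B' ∧ Atomic B' bb := by
  obtain ⟨K, hK, hKc, hfull⟩ := exists_full hc hf ht
  obtain ⟨a, ha, hat⟩ := almostPrime_iff.1 h
  obtain ⟨B', bb, hB', hBc, hte, hat'⟩ := exists_atomic hc.sent hK hKc hfull B hB a ha
  refine ⟨B', bb, ?_, ?_, hBc, hat'⟩
  · intro h0; have := hte.2.1; rw [h0] at this
    exact ha (List.length_eq_zero_iff.1 (by simpa using this))
  · exact Atomic.unique hat' hat hte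

theorem almostPrime_dec {T : Set Fml} (hc : IsComplete T) (hf : FinMany T) (ht : CompTypes T)
    {B : Str} (hB : IsModel B T) (h : AlmostPrime B) : DecModel B := by
  obtain ⟨B', bb, -, hi, hBc, -⟩ := almostPrime_copy hc hf ht hB h
  exact decModel_of_iso hi hBc

/-- Isomorphic copies of the almost prime model. -/
theorem limitOver_iso {B B' N : Str} (hi : Iso B B') (h : LimitOver B N) : LimitOver B' N := by
  obtain ⟨σ, hσ⟩ := elemEmb_of_iso (iso_symm hi)
  obtain ⟨hna, ι, h1, h2, h3⟩ := h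
  have hr : ∀ n, Set.range (ι n ∘ σ) = Set.range (ι n) := fun n => by
    rw [Set.range_comp, σ.surjective.range_eq, Set.image_univ]
  refine ⟨hna, fun n => ι n ∘ σ, fun n => hσ.comp (h1 n), fun n => ?_, fun x => ?_⟩
  · rw [hr, hr]; exact h2 n
  · obtain ⟨n, hn⟩ := h3 x
    exact ⟨n, by rw [hr]; exact hn⟩

theorem limit_dec {T : Set Fml} (hc : IsComplete T) (hf : FinMany T) (ht : CompTypes T)
    {B N : Str} (hB : IsModel B T) (hap : AlmostPrime B) (h : LimitOver B N) :
    ∃ L, LimitOver B L ∧ DecModel L := by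
  obtain ⟨B', bb, hbb, hi, hBc, hat⟩ := almostPrime_copy hc hf ht hB hap
  obtain ⟨Y, hY, hna⟩ := exists_step hbb (limitOver_iso hi h)
  obtain ⟨f, hf1, hf2, hf3⟩ := exists_f hBc hbb hat hY
  obtain ⟨L, ι, h1, h2, h3⟩ := dirlim hf1
  have hna' : ¬ Atomic B' (bb.map f) := by rw [hf2]; exact hna
  refine ⟨L, limitOver_iso (iso_symm hi) (dir_limitOver h1 h2 h3 hbb hat hna'), ?_⟩
  obtain ⟨g, hg, hg'⟩ := limComp_names hf3
  obtain ⟨L', hi', hL'⟩ := main_inj (a := fun v => ι v.unpair.1 v.unpair.2) hbb hBc hat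
    (dir_cov h1 h2 h3 hbb) (fun z => by
      obtain ⟨i, x, rfl⟩ := h3 z
      exact ⟨Nat.pair i x, by simp⟩) hg
    (fun n hn => ⟨_, dir_te h1 h2 hn, hg' n⟩)
  exact decModel_of_iso hi' hL'

end Pool.Agent.H97.EM
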